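import Pool.Agent.TH294.GL.Posi

/-!
# MP_18bc13_pr: in dimension one there is no `L¹` limit in general
-/

set_option autoImplicit false

open Finset MeasureTheory ProbabilityTheory Filter Topology
open scoped ENNReal

namespace Pool.Agent.TH294.GL

open Pool.Agent.W844.VG (V stp nm)
open Pool.Agent.W844.GP

/-- law of `-1/U` with `U` uniform on `(0,1)` -/
noncomputable def nu1 : Measure ℝ := (volume.restrict (Set.Ioo (0:ℝ) 1)).map fun u => -u⁻¹

lemma meas_ninv : Measurable fun u : ℝ => -u⁻¹ := measurable_inv.neg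

instance : IsProbabilityMeasure nu1 := by
  unfold nu1
  have : IsProbabilityMeasure (volume.restrict (Set.Ioo (0:ℝ) 1)) := ⟨by simp⟩
  exact Measure.isProbabilityMeasure_map meas_ninv.aemeasurable

lemma nu1_Iio {t : ℝ} (ht : 0 < t) : nu1 (Set.Iio (-t)) ≤ ENNReal.ofReal (min 1 t⁻¹) := by
  unfold nu1
  rw [Measure.map_apply meas_ninv measurableSet_Iio,
    Measure.restrict_apply (meas_ninv measurableSet_Iio)]
  calc volume ((fun u : ℝ => -u⁻¹) ⁻¹' Set.Iio (-t) ∩ Set.Ioo 0 1)
      ≤ volume (Set.Ioo (0:ℝ) (min 1 t⁻¹)) := by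
        apply measure_mono
        rintro u ⟨h1, h2, h3⟩
        have h4 : t < u⁻¹ := by
          have : -u⁻¹ < -t := h1
          linarith
        refine ⟨h2, lt_min h3 ?_⟩
        rwa [lt_inv_comm₀ h2 ht]
    _ = _ := by rw [Real.volume_Ioo, sub_zero]

lemma nu1_Ioi {u : ℝ} (hu : 0 < u) : nu1 (Set.Ioi (-u)) ≤ ENNReal.ofReal (1 - u⁻¹) := by
  unfold nu1
  rw [Measure.map_apply meas_ninv measurableSet_Ioi,
    Measure.restrict_apply (meas_ninv measurableSet_Ioi)]
  calc volume ((fun u : ℝ => -u⁻¹) ⁻¹' Set.Ioi (-u) ∩ Set.Ioo 0 1)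
      ≤ volume (Set.Ioo (u⁻¹) 1) := by
        apply measure_mono
        rintro v ⟨h1, h2, h3⟩
        have h4 : v⁻¹ < u := by
          have : -u < -v⁻¹ := h1
          linarith
        refine ⟨?_, h3⟩
        rwa [inv_lt_comm₀ hu h2]
    _ = _ := by rw [Real.volume_Ioo]

lemma nu1_pos : ∀ᵐ x ∂nu1, x ≤ 0 := by
  unfold nu1
  rw [ae_map_iff meas_ninv.aemeasurable measurableSet_Iic]
  rw [ae_restrict_iff' measurableSet_Ioo]
  refine Eventually.of_forall fun u hu => ?_
  have := inv_pos.mpr hu.1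
  linarith

lemma nu1_Ioi_zero : nu1 (Set.Ioi 0) = 0 := by
  have h := nu1_pos
  rw [ae_iff] at h
  refine measure_mono_null (fun x hx => ?_) h
  simpa using hx

lemma nu1_aminus : ∫⁻ t in Set.Ioi (0:ℝ), nu1 (Set.Iio (-t)) ^ (2 * 1) < ⊤ := by
  have h1 : ∀ t ∈ Set.Ioi (0:ℝ), nu1 (Set.Iio (-t)) ^ (2 * 1) ≤
      (Set.Iic 1).indicator 1 t + (Set.Ioi 1).indicator (fun t : ℝ => ENNReal.ofReal (t ^ (-2:ℝ))) t := by
    intro t ht
    have ht0 : (0:ℝ) < t := ht
    have h2 := nu1_Iio ht0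
    rcases le_or_gt t 1 with h | h
    · rw [Set.indicator_of_mem (by exact h)]
      refine le_trans ?_ le_self_add
      have : nu1 (Set.Iio (-t)) ≤ 1 := prob_le_one
      exact pow_le_one₀ bot_le this
    · rw [Set.indicator_of_notMem (by simpa using h), Set.indicator_of_mem (by exact h), zero_add]
      calc nu1 (Set.Iio (-t)) ^ (2 * 1) ≤ ENNReal.ofReal (t⁻¹) ^ (2 * 1) := by
            gcongr
            exact h2.trans (ENNReal.ofReal_le_ofReal (min_le_right _ _))
        _ = ENNReal.ofReal (t ^ (-2:ℝ)) := by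
            rw [← ENNReal.ofReal_pow (by positivity)]
            congr 1
            rw [Real.rpow_neg ht0.le]
            norm_num
  refine (setLIntegral_mono' measurableSet_Ioi h1).trans_lt ?_
  rw [lintegral_add_left (measurable_one.indicator measurableSet_Iic)]
  refine ENNReal.add_lt_top.mpr ⟨?_, ?_⟩
  · rw [lintegral_indicator_one measurableSet_Iic, Measure.restrict_apply measurableSet_Iic]
    have : Set.Iic (1:ℝ) ∩ Set.Ioi 0 = Set.Ioc 0 1 := by ext; simp [and_comm]
    rw [this, Real.volume_Ioc]; exact ENNReal.ofReal_lt_top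
  · refine (lintegral_mono' Measure.restrict_le_self le_rfl).trans_lt ?_
    rw [lintegral_indicator measurableSet_Ioi]
    have h3 : IntegrableOn (fun t : ℝ => t ^ (-2:ℝ)) (Set.Ioi 1) :=
      integrableOn_Ioi_rpow_of_lt (by norm_num) one_pos
    exact (hasFiniteIntegral_iff_ofReal (by
      refine (ae_restrict_iff' measurableSet_Ioi).mpr (Eventually.of_forall fun t ht => ?_)
      have : (0:ℝ) < t := lt_trans one_pos ht
      positivity)).mp h3.2

lemma nu1_aplus : ∫⁻ x, ENNReal.ofReal ((max x 0) ^ 1 *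
    (max (Real.log (max x 0)) 0) ^ (((1:ℕ):ℝ) + 1)) ∂nu1 < ⊤ := by
  have h : ∀ᵐ x ∂nu1, ENNReal.ofReal ((max x 0) ^ 1 *
    (max (Real.log (max x 0)) 0) ^ (((1:ℕ):ℝ) + 1)) = 0 := by
    filter_upwards [nu1_pos] with x hx
    rw [max_eq_right hx]; simp
  rw [lintegral_congr_ae h]; simp

/-! ### one-dimensional paths -/

lemma adj_one {x y : V 1} : adj x y ↔ |y 0 - x 0| = 1 := by
  unfold adj; simp

lemma ext_one {x y : V 1} (h : x 0 = y 0) : x = y := by
  funext j; rwa [Subsingleton.elim j 0]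

lemma path_one : ∀ (l : List (V 1)) (a b : V 1), IsP (a :: b :: l) → ∀ k : ℕ, 1 ≤ k →
    k ≤ l.length + 1 → pt 0 (a 0 + k * (b 0 - a 0)) ∈ b :: l := by
  intro l
  induction l with
  | nil =>
    intro a b _ k hk1 hk2
    have : k = 1 := by simp at hk2; omega
    subst this
    have h : pt 0 (a 0 + ((1:ℕ):ℤ) * (b 0 - a 0)) = b := by
      apply ext_one; simp
    rw [h]; simp
  | cons c l ih =>
    intro a b hP k hk1 hk2
    rcases Nat.eq_or_lt_of_le hk1 with rfl | hk
    · have h : pt 0 (a 0 + ((1:ℕ):ℤ) * (b 0 - a 0)) = b := by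
        apply ext_one; simp
      rw [h]; simp
    · have h1 := IsP.cons_iff.mp hP
      have h2 := IsP.cons_iff.mp h1.2.2
      have hab := adj_one.mp h1.1
      have hbc := adj_one.mp h2.1
      have hac : a 0 ≠ c 0 := by
        intro h
        apply h1.2.1
        rw [ext_one h]; simp
      have hstep : c 0 - b 0 = b 0 - a 0 := by
        rcases abs_cases (b 0 - a 0) with ⟨h3, h4⟩ | ⟨h3, h4⟩ <;>
          rcases abs_cases (c 0 - b 0) with ⟨h5, h6⟩ | ⟨h5, h6⟩ <;> omega
      have h3 := ih b c h1.2.2 (k - 1) (by omega) (by simp at hk2; omega)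
      have h4 : a 0 + (k:ℤ) * (b 0 - a 0) = b 0 + ((k - 1 : ℕ) : ℤ) * (c 0 - b 0) := by
        rw [hstep]; push_cast [Nat.cast_sub hk1]; ring
      rw [h4]
      exact List.mem_cons_of_mem _ h3

lemma wt_le_of_mem {d : ℕ} {w : V d → ℝ} (hw : ∀ x, w x ≤ 0) {l : List (V d)} {z : V d}
    (hz : z ∈ l) : wt w l ≤ w z := by
  induction l with
  | nil => simp at hz
  | cons x l ih =>
    rw [wt_cons]
    rcases List.mem_cons.mp hz with rfl | hz
    · have := wt_le hw l
      simp at this; linarith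
    · have := ih hz; have := hw x; linarith

/-- the right and the left block -/
def blk (b : Bool) (n : ℕ) : Finset (V 1) :=
  (Icc 1 n).image fun k : ℕ => pt 0 (if b then (k : ℤ) else -(k : ℤ))

lemma card_blk (b : Bool) (n : ℕ) : (blk b n).card = n := by
  unfold blk
  rw [card_image_of_injective, Nat.card_Icc, Nat.add_sub_cancel]
  intro k k' h
  have := pt_inj _ h
  cases b <;> simpa using this

lemma Mn_one {w : V 1 → ℝ} (hw : ∀ x, w x ≤ 0) {n : ℕ} (hn : 1 ≤ n) {u : ℝ}
    (h : ∀ b : Bool, ∃ z ∈ blk b n, w z ≤ -u) : Mn w n ≤ -u := by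
  obtain ⟨l, h1, h2, h3⟩ := exists_Mn (d := 1) le_rfl w n
  rw [← h3]
  cases l with
  | nil => simp at h1; omega
  | cons b l =>
    have h4 := path_one l 0 b h2
    have h5 := adj_one.mp (IsP.cons_iff.mp h2).1
    simp only [Pi.zero_apply, sub_zero, zero_add] at h4 h5
    have h6 : ∃ c : Bool, b 0 = if c then 1 else -1 := by
      rcases (abs_eq (by norm_num)).mp h5 with h | h
      · exact ⟨true, by simpa using h⟩
      · exact ⟨false, by simpa using h⟩
    obtain ⟨c, hc⟩ := h6
    obtain ⟨z, hz, hzu⟩ := h c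
    unfold blk at hz
    obtain ⟨k, hk, rfl⟩ := mem_image.mp hz
    rw [mem_Icc] at hk
    have h7 := h4 k hk.1 (by simp at h1; omega)
    refine (wt_le_of_mem hw h7).trans ?_
    have h8 : (k : ℤ) * b 0 = if c then (k : ℤ) else -(k : ℤ) := by
      rw [hc]; cases c <;> simp
    rw [h8]
    exact hzu

lemma law_high (ν : Measure ℝ) [IsProbabilityMeasure ν] {d : ℕ} (S : Finset (V d)) (t : ℝ) :
    law ν d {w | ∀ x ∈ S, -t < w x} = ν (Set.Ioi (-t)) ^ S.card := by
  have h1 : {w : V d → ℝ | ∀ x ∈ S, -t < w x} = Set.pi S (fun _ => Set.Ioi (-t)) := by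
    ext w; simp [Set.mem_pi]
  rw [h1]
  unfold law
  have h2 := Measure.infinitePi_pi (μ := fun _ : V d => ν) (s := S) (t := fun _ => Set.Ioi (-t))
    (fun _ _ => measurableSet_Ioi)
  rw [h2]
  simp

lemma meas_high {d : ℕ} (S : Finset (V d)) (t : ℝ) :
    MeasurableSet {w : V d → ℝ | ∀ x ∈ S, -t < w x} := by
  have h1 : {w : V d → ℝ | ∀ x ∈ S, -t < w x} = ⋂ x ∈ S, {w | -t < w x} := by
    ext w; simp
  rw [h1]
  refine Finset.measurableSet_biInter _ fun x _ => ?_
  exact measurableSet_lt measurable_const (measurable_pi_apply x)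

/-- both blocks contain a very negative weight with probability bounded below -/
lemma law_both {lam : ℝ} (hlam : 1 ≤ lam) {n : ℕ} (hn : 1 ≤ n) :
    ENNReal.ofReal ((1 - Real.exp (-lam⁻¹)) ^ 2) ≤
      law nu1 1 {w | ∀ b : Bool, ∃ z ∈ blk b n, w z ≤ -(lam * n)} := by
  have hn0 : (0:ℝ) < n := by exact_mod_cast hn
  set E : Bool → Set (V 1 → ℝ) := fun b => {w | ∀ x ∈ blk b n, -(lam * n) < w x}ᶜ with hE
  have h1 := Pool.Agent.W924.GP.T_INDK 1 nu1 Bool Finset.univ E (fun b => (blk b n : Set (V 1)))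
      (fun b _ => (meas_high _ _).compl)
      (by
        intro b _ w w' h
        apply propext
        simp only [hE, Set.mem_compl_iff, Set.mem_ofPred_eq]
        rw [not_iff_not]
        constructor
        · intro h2 x hx; rw [← h x hx]; exact h2 x hx
        · intro h2 x hx; rw [h x hx]; exact h2 x hx)
      (by
        intro b _ b' _ hbb'
        rw [Finset.disjoint_coe, Finset.disjoint_left]
        intro x hx hx'
        obtain ⟨k, hk, rfl⟩ := mem_image.mp hx
        obtain ⟨k', hk', h⟩ := mem_image.mp hx'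
        have h2 := pt_inj _ h
        rw [mem_Icc] at hk hk'
        cases b <;> cases b' <;> simp at h2 hbb' <;> omega)
  have h2 : (⋂ k ∈ (Finset.univ : Finset Bool), E k) =
      {w | ∀ b : Bool, ∃ z ∈ blk b n, w z ≤ -(lam * n)} := by
    ext w
    simp [hE]
  rw [h2] at h1
  rw [h1]
  have h3 : ∀ b : Bool, ENNReal.ofReal (1 - Real.exp (-lam⁻¹)) ≤ law nu1 1 (E b) := by
    intro b
    simp only [hE]
    rw [prob_compl_eq_one_sub (meas_high _ _), law_high, card_blk]
    have h4 : nu1 (Set.Ioi (-(lam * n))) ^ n ≤ ENNReal.ofReal (Real.exp (-lam⁻¹)) := by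
      calc nu1 (Set.Ioi (-(lam * n))) ^ n ≤ ENNReal.ofReal (1 - (lam * n)⁻¹) ^ n := by
            gcongr; exact nu1_Ioi (by positivity)
        _ ≤ ENNReal.ofReal (Real.exp (-(lam * n)⁻¹)) ^ n := by
            gcongr
            have := Real.add_one_le_exp (-(lam * n)⁻¹)
            linarith
        _ = _ := by
            rw [← ENNReal.ofReal_pow (Real.exp_pos _).le, ← Real.exp_nat_mul]
            congr 2
            field_simp
    rw [ENNReal.ofReal_sub _ (Real.exp_pos _).le, ENNReal.ofReal_one]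
    exact tsub_le_tsub_left h4 1
  have h5 : 0 ≤ 1 - Real.exp (-lam⁻¹) := by
    have : Real.exp (-lam⁻¹) ≤ 1 := by
      rw [Real.exp_le_one_iff]
      have : 0 < lam⁻¹ := by positivity
      linarith
    linarith
  calc ENNReal.ofReal ((1 - Real.exp (-lam⁻¹)) ^ 2)
      = ∏ _b : Bool, ENNReal.ofReal (1 - Real.exp (-lam⁻¹)) := by
        rw [ENNReal.ofReal_pow h5]; simp
    _ ≤ _ := Finset.prod_le_prod' fun b _ => h3 b

theorem no_limit (M : ℝ) : ¬ Tendsto (fun n : ℕ => ∫⁻ w, ENNReal.ofReal |Mn w n / n - M|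
    ∂law nu1 1) atTop (𝓝 0) := by
  intro hlim
  set lam : ℝ := |M| + 1 with hlam
  have hl1 : 1 ≤ lam := by have := abs_nonneg M; linarith
  set c : ℝ := (1 - Real.exp (-lam⁻¹)) ^ 2 with hc
  have hc0 : 0 < c := by
    have : Real.exp (-lam⁻¹) < 1 := by
      rw [Real.exp_lt_one_iff]
      have : 0 < lam⁻¹ := by positivity
      linarith
    have : 0 < 1 - Real.exp (-lam⁻¹) := by linarith
    positivity
  have h1 : ∀ n : ℕ, 1 ≤ n → ENNReal.ofReal c ≤
      ∫⁻ w, ENNReal.ofReal |Mn w n / n - M| ∂law nu1 1 := by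
    intro n hn
    have hn0 : (0:ℝ) < n := by exact_mod_cast hn
    have hm : MeasurableSet {w : V 1 → ℝ | ∀ b : Bool, ∃ z ∈ blk b n, w z ≤ -(lam * n)} := by
      have h2 : {w : V 1 → ℝ | ∀ b : Bool, ∃ z ∈ blk b n, w z ≤ -(lam * n)} =
          ⋂ b : Bool, {w | ∀ x ∈ blk b n, -(lam * n) < w x}ᶜ := by
        ext w; simp
      rw [h2]
      exact MeasurableSet.iInter fun b => (meas_high _ _).compl
    refine (law_both hl1 hn).trans ?_
    rw [← lintegral_indicator_one hm]
    apply lintegral_mono_ae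
    filter_upwards [ae_le (d := 1) nu1_Ioi_zero] with w hw
    by_cases hwE : w ∈ {w : V 1 → ℝ | ∀ b : Bool, ∃ z ∈ blk b n, w z ≤ -(lam * n)}
    · rw [Set.indicator_of_mem hwE]
      have h3 := Mn_one hw hn hwE
      have h4 : Mn w n / n ≤ -lam := by
        rw [div_le_iff₀ hn0]; linarith
      have h5 : 1 ≤ |Mn w n / n - M| := by
        have h6 := neg_abs_le M
        have h7 := neg_abs_le (Mn w n / n - M)
        linarith
      simp only [Pi.one_apply]
      rw [← ENNReal.ofReal_one]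
      exact ENNReal.ofReal_le_ofReal h5
    · rw [Set.indicator_of_notMem hwE]; exact bot_le
  have h2 := ge_of_tendsto hlim (eventually_atTop.mpr ⟨1, h1⟩)
  have h3 : 0 < ENNReal.ofReal c := ENNReal.ofReal_pos.mpr hc0
  exact absurd h2 (not_le.mpr h3)

end Pool.Agent.TH294.GL
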