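import Pool.Agent.TH294.GL.Geo
import Pool.Agent.W924.GP.IND
import Pool.Agent.W347.GP.Meas
import Pool.Agent.W346.GP.Tail

/-!
# MP_18bc13_pr: an inequality of conditional type

`B` an event which depends on the set of closed vertices only: the chance that `B` happens and that
the weights at finitely many vertices are very negative.
-/

set_option autoImplicit false

open Finset MeasureTheory ProbabilityTheory Filter Topology
open scoped ENNReal

namespace Pool.Agent.TH294.GL

open Pool.Agent.W844.VG
open Pool.Agent.W844.GP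

variable {d : ℕ}

/-- the event depends on the set of closed vertices only -/
def ClDep (K : ℝ) (B : Set (V d → ℝ)) : Prop :=
  ∀ w w' : V d → ℝ, Cl K w = Cl K w' → (w ∈ B ↔ w' ∈ B)

lemma law_low (ν : Measure ℝ) [IsProbabilityMeasure ν] (S : Finset (V d)) (t : ℝ) :
    law ν d {w | ∀ x ∈ S, w x < -t} = ν (Set.Iio (-t)) ^ S.card := by
  have h1 : {w : V d → ℝ | ∀ x ∈ S, w x < -t} = Set.pi S (fun _ => Set.Iio (-t)) := by
    ext w; simp [Set.mem_pi]
  rw [h1]
  unfold law
  have h2 := Measure.infinitePi_pi (μ := fun _ : V d => ν) (s := S) (t := fun _ => Set.Iio (-t))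
    (fun _ _ => measurableSet_Iio)
  rw [h2]
  simp

lemma meas_low (S : Finset (V d)) (t : ℝ) :
    MeasurableSet {w : V d → ℝ | ∀ x ∈ S, w x < -t} := by
  have h1 : {w : V d → ℝ | ∀ x ∈ S, w x < -t} = ⋂ x ∈ S, {w | w x < -t} := by
    ext w; simp
  rw [h1]
  refine Finset.measurableSet_biInter _ fun x _ => ?_
  exact measurableSet_lt (measurable_pi_apply x) measurable_const

theorem cond_bound (ν : Measure ℝ) [IsProbabilityMeasure ν] {K t : ℝ} (hKt : K ≤ t)
    (S : Finset (V d)) {B : Set (V d → ℝ)} (hB : MeasurableSet B) (hdep : ClDep K B) :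
    law ν d (B ∩ {w | ∀ x ∈ S, w x < -t}) * ν (Set.Iio (-K)) ^ S.card ≤
      law ν d B * ν (Set.Iio (-t)) ^ S.card := by
  classical
  set φ : (V d → ℝ) → (V d → ℝ) := fun w x => if x ∈ S then -K - 1 else w x with hφ
  have hφm : Measurable φ := by
    rw [measurable_pi_iff]
    intro x
    by_cases hx : x ∈ S
    · simp only [hφ, hx, if_true]; exact measurable_const
    · simp only [hφ, hx, if_false]; exact measurable_pi_apply x
  set B' : Set (V d → ℝ) := φ ⁻¹' B with hB'
  have hB'm : MeasurableSet B' := hφm hB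
  have hcl : ∀ w : V d → ℝ, (∀ x ∈ S, w x < -K) → Cl K w = Cl K (φ w) := by
    intro w hw
    ext x
    unfold Cl
    simp only [Set.mem_ofPred_eq, hφ]
    by_cases hx : x ∈ S
    · simp only [hx, if_true]
      have := hw x hx
      constructor
      · intro _; linarith
      · intro _; exact this
    · simp only [hx, if_false]
  have hind : ∀ u : ℝ, law ν d (B' ∩ {w | ∀ x ∈ S, w x < -u}) =
      law ν d B' * ν (Set.Iio (-u)) ^ S.card := by
    intro u
    have h1 := Pool.Agent.W924.GP.T_INDK d ν Bool Finset.univ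
      (fun b => if b then B' else {w | ∀ x ∈ S, w x < -u})
      (fun b => if b then {x | x ∉ S} else {x | x ∈ S})
      (by
        intro b _
        cases b
        · simpa using meas_low S u
        · simpa using hB'm)
      (by
        intro b _
        cases b
        · simp only [Bool.false_eq_true, if_false]
          intro w w' h
          simp only [Set.mem_ofPred_eq] at h ⊢
          apply propext
          constructor
          · intro h2 x hx; rw [← h x hx]; exact h2 x hx
          · intro h2 x hx; rw [h x hx]; exact h2 x hx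
        · simp only [if_true]
          intro w w' h
          simp only [Set.mem_ofPred_eq] at h
          have : φ w = φ w' := by
            funext x
            simp only [hφ]
            by_cases hx : x ∈ S
            · simp [hx]
            · simp [hx, h x hx]
          show (φ w ∈ B) = (φ w' ∈ B)
          rw [this])
      (by
        intro b _ b' _ hbb'
        have hdisj : Disjoint {x : V d | x ∉ S} {x | x ∈ S} := by
          rw [Set.disjoint_left]; intro x hx; simpa using hx
        cases b <;> cases b' <;> simp_all [Set.disjoint_left])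
    have h2 : (⋂ k ∈ (Finset.univ : Finset Bool),
        (fun b : Bool => if b = true then B' else {w | ∀ x ∈ S, w x < -u}) k) =
        B' ∩ {w | ∀ x ∈ S, w x < -u} := by
      ext w
      simp [and_comm]
    rw [h2] at h1
    rw [h1]
    simp [law_low ν S u]
  have h3 : ∀ u : ℝ, K ≤ u → B ∩ {w | ∀ x ∈ S, w x < -u} = B' ∩ {w | ∀ x ∈ S, w x < -u} := by
    intro u hu
    ext w
    simp only [Set.mem_inter_iff, Set.mem_ofPred_eq]
    constructor
    · rintro ⟨h, h'⟩
      refine ⟨(hdep w (φ w) (hcl w fun x hx => ?_)).mp h, h'⟩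
      have := h' x hx; linarith
    · rintro ⟨h, h'⟩
      refine ⟨(hdep w (φ w) (hcl w fun x hx => ?_)).mpr h, h'⟩
      have := h' x hx; linarith
  have h4 : law ν d B' * ν (Set.Iio (-K)) ^ S.card ≤ law ν d B := by
    rw [← hind K, ← h3 K le_rfl]
    exact measure_mono Set.inter_subset_left
  rw [h3 t hKt, hind t]
  calc law ν d B' * ν (Set.Iio (-t)) ^ S.card * ν (Set.Iio (-K)) ^ S.card
      = (law ν d B' * ν (Set.Iio (-K)) ^ S.card) * ν (Set.Iio (-t)) ^ S.card := by ring
    _ ≤ _ := by gcongr

/-- expectation of the smallest of finitely many negative parts on an event which depends on the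
set of closed vertices only -/
theorem lint_bound (ν : Measure ℝ) [IsProbabilityMeasure ν] {K : ℝ}
    (hp : ν (Set.Iio (-K)) ≠ 0)
    {S : Finset (V d)} {B : Set (V d → ℝ)} (hB : MeasurableSet B) (hdep : ClDep K B)
    (f : (V d → ℝ) → ℝ) (hf : Measurable f) (hf0 : ∀ w, 0 ≤ f w)
    (hfS : ∀ w t, 0 ≤ t → t < f w → ∀ x ∈ S, w x < -t) :
    ∫⁻ w in B, ENNReal.ofReal (f w) ∂law ν d ≤
      law ν d B * (ENNReal.ofReal K + (ν (Set.Iio (-K)) ^ S.card)⁻¹ *
        ∫⁻ t in Set.Ioi (0 : ℝ), ν (Set.Iio (-t)) ^ S.card) := by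
  have hp' : ν (Set.Iio (-K)) ^ S.card ≠ 0 := pow_ne_zero _ hp
  have hp'' : ν (Set.Iio (-K)) ^ S.card ≠ ⊤ := ENNReal.pow_ne_top (measure_ne_top _ _)
  rw [lintegral_eq_lintegral_meas_lt _ (Eventually.of_forall hf0) hf.aemeasurable]
  have h1 : ∀ t ∈ Set.Ioi (0 : ℝ), ((law ν d).restrict B) {w | t < f w} ≤
      law ν d B * ((Set.Iic K).indicator 1 t + (ν (Set.Iio (-K)) ^ S.card)⁻¹ *
        ν (Set.Iio (-t)) ^ S.card) := by
    intro t ht
    have hm : MeasurableSet {w | t < f w} := measurableSet_lt measurable_const hf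
    rw [Measure.restrict_apply hm, Set.inter_comm]
    rcases le_or_gt t K with htK | htK
    · rw [Set.indicator_of_mem (by exact htK)]
      refine (measure_mono Set.inter_subset_left).trans ?_
      calc law ν d B = law ν d B * 1 := by rw [mul_one]
        _ ≤ _ := by gcongr; simp only [Pi.one_apply]; exact le_self_add
    · rw [Set.indicator_of_notMem (by simpa using htK), zero_add]
      have h2 := cond_bound ν htK.le S hB hdep
      have h3 : law ν d (B ∩ {w | t < f w}) ≤ law ν d (B ∩ {w | ∀ x ∈ S, w x < -t}) :=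
        measure_mono (Set.inter_subset_inter_right _ fun w hw => hfS w t (le_of_lt ht) hw)
      refine h3.trans ?_
      rw [← ENNReal.le_div_iff_mul_le (Or.inl hp') (Or.inl hp'')] at h2
      refine h2.trans (le_of_eq ?_)
      rw [ENNReal.div_eq_inv_mul]; ring
  refine (setLIntegral_mono' measurableSet_Ioi h1).trans ?_
  rw [lintegral_const_mul' _ _ (measure_ne_top _ _)]
  gcongr
  have hmeas : Measurable fun t : ℝ => (Set.Iic K).indicator (1 : ℝ → ℝ≥0∞) t :=
    measurable_one.indicator measurableSet_Iic
  rw [lintegral_add_left hmeas]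
  have h4 : ∫⁻ t in Set.Ioi (0 : ℝ), (Set.Iic K).indicator (1 : ℝ → ℝ≥0∞) t = ENNReal.ofReal K := by
    rw [lintegral_indicator_one measurableSet_Iic, Measure.restrict_apply measurableSet_Iic]
    have : Set.Iic K ∩ Set.Ioi 0 = Set.Ioc 0 K := by ext; simp [and_comm]
    rw [this, Real.volume_Ioc, sub_zero]
  rw [h4, lintegral_const_mul' _ _ (ENNReal.inv_ne_top.mpr hp')]

end Pool.Agent.TH294.GL
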