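import Pool.Agent.W844.GP.Basic
import Pool.Agent.W612.GP.Sur

/-!
# MP_18bc13_pr: a deterministic lower bound for greedy paths

If from height `R / 2` on, the closed clusters met by the ray `{k e_i}` are small compared with
the height, then there is an `n`-step path from the origin of weight at least
`- ∑_{k ≤ R} w⁻(k e_i) - K n`, for every `n`.
-/

set_option autoImplicit false

open Finset MeasureTheory ProbabilityTheory Filter Topology
open scoped ENNReal

namespace Pool.Agent.TH294.GL

open Pool.Agent.W844.VG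
open Pool.Agent.W844.GP

variable {d : ℕ}

/-- the closed clusters met by the ray beyond `R / 2` are small compared with the height -/
def Good (K : ℝ) (i : Fin d) (R : ℕ) (w : V d → ℝ) : Prop :=
  ∀ m : ℕ, R < 2 * m → pt i m ∈ Cl K w → ∀ y ∈ Hull (Cl K w) {pt i (m : ℤ)},
    8 * nm (y - pt i m) ≤ m

lemma Good.mono {K : ℝ} {i : Fin d} {R R' : ℕ} {w : V d → ℝ} (h : Good K i R w) (hR : R ≤ R') :
    Good K i R' w := fun m hm => h m (by omega)

/-- sum of the negative parts along the ray -/
noncomputable def ray (i : Fin d) (R : ℕ) (w : V d → ℝ) : ℝ :=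
  ∑ k ∈ Icc 1 R, max (-w (pt i (k : ℤ))) 0

lemma ray_nonneg (i : Fin d) (R : ℕ) (w : V d → ℝ) : 0 ≤ ray i R w :=
  sum_nonneg fun _ _ => le_max_right _ _

lemma ray_mono (i : Fin d) {R R' : ℕ} (h : R ≤ R') (w : V d → ℝ) : ray i R w ≤ ray i R' w := by
  unfold ray
  exact sum_le_sum_of_subset_of_nonneg (Icc_subset_Icc le_rfl h) fun _ _ _ => le_max_right _ _

lemma pt_inj (i : Fin d) : Function.Injective (pt i) := fun a b h => by
  have := congrFun h i
  simpa using this

lemma wt_line (w : V d → ℝ) (i : Fin d) (h : ℕ) :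
    -ray i h w ≤ wt w (line i 0 h) := by
  induction h with
  | zero => simp [ray, line]
  | succ h ih =>
    have h1 : line i 0 (h + 1) = line i 0 h ++ [pt i ((h + 1 : ℕ) : ℤ)] := by
      unfold line
      rw [List.range_succ, List.map_append]
      simp
    rw [h1, wt_append]
    have h2 : ray i (h + 1) w = ray i h w + max (-w (pt i ((h + 1 : ℕ) : ℤ))) 0 := by
      unfold ray
      rw [sum_Icc_succ_top (by omega)]
    rw [h2]
    have h3 := le_max_left (-w (pt i ((h + 1 : ℕ) : ℤ))) 0
    simp only [wt_cons, wt_nil]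
    linarith

open scoped Classical in
lemma wt_ge_of_exc {w : V d → ℝ} {K : ℝ} (l : List (V d)) (hl : l.Nodup) (B : Finset (V d))
    (h : ∀ z ∈ l, -K ≤ w z ∨ z ∈ B) (hK : 0 ≤ K) :
    -(K * l.length) - ∑ z ∈ B, max (-w z) 0 ≤ wt w l := by
  rw [wt_eq_sum w hl]
  have h1 : ∀ z ∈ l.toFinset, -K - (if z ∈ B then max (-w z) 0 else 0) ≤ w z := by
    intro z hz
    have hz' := List.mem_toFinset.mp hz
    split_ifs with hB
    · have := le_max_left (-w z) 0; linarith
    · rcases h z hz' with h | h
      · linarith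
      · exact absurd h hB
  have h2 := sum_le_sum h1
  refine le_trans ?_ h2
  rw [sum_sub_distrib, sum_const, nsmul_eq_mul, List.toFinset_card_of_nodup hl]
  have h3 : ∑ z ∈ l.toFinset, (if z ∈ B then max (-w z) 0 else 0) ≤ ∑ z ∈ B, max (-w z) 0 := by
    rw [← sum_filter]
    refine sum_le_sum_of_subset_of_nonneg ?_ fun _ _ _ => le_max_right _ _
    intro z hz
    exact (mem_filter.mp hz).2
  nlinarith

/-- a closed cluster far up the ray avoids the low heights -/
lemma Good.height {K : ℝ} {i : Fin d} {R : ℕ} {w : V d → ℝ} (hg : Good K i R w) {m : ℕ}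
    (hm : R < 2 * m) (hcl : pt i (m : ℤ) ∈ Cl K w) {y : V d}
    (hy : y ∈ Hull (Cl K w) {pt i (m : ℤ)}) :
    7 * (m : ℤ) ≤ 8 * y i ∧ 8 * y i ≤ 9 * m := by
  have h1 := hg m hm hcl y hy
  have h2 := abs_le_nm (y - pt i m) i
  simp only [Pi.sub_apply, pt_same] at h2
  rw [abs_le] at h2
  constructor <;> omega

theorem geo (hd : 2 ≤ d) {w : V d → ℝ} {K : ℝ} (hK : 0 ≤ K) (i : Fin d) {R : ℕ} (hR : 64 ≤ R)
    (hg : Good K i R w) (n : ℕ) : Lo w n (-ray i R w - K * n) := by
  rcases le_or_gt n R with hn | hn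
  · -- straight line
    refine ⟨line i 0 n, length_line _ _ _, ?_, ?_⟩
    · have := (sb_line i 0 n).isP
      simpa using this
    · have h1 := wt_line w i n
      have h2 := ray_mono i hn w
      have h3 : 0 ≤ K * n := by positivity
      linarith
  -- the detour
  set a : ℕ := 3 * R / 8 with ha
  set N : ℕ := 2 * n + 1 with hN
  set D : Set (V d) := {x | ∃ m : ℕ, R < 2 * m ∧ m ≤ n ∧ x = pt i m ∧ x ∈ Cl K w} with hD
  set A : Set (V d) := Hull (Cl K w) D with hA
  have hAmem : ∀ y ∈ A, ∃ m : ℕ, R < 2 * m ∧ m ≤ n ∧ pt i (m : ℤ) ∈ Cl K w ∧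
      y ∈ Hull (Cl K w) {pt i (m : ℤ)} := by
    intro y hy
    rw [hA, hull_eq_biUnion] at hy
    simp only [Set.mem_iUnion] at hy
    obtain ⟨x, ⟨m, h1, h2, rfl, h4⟩, hy⟩ := hy
    exact ⟨m, h1, h2, h4, hy⟩
  have hAh : ∀ y ∈ A, 7 * (R : ℤ) < 16 * y i ∧ 8 * y i ≤ 9 * n := by
    intro y hy
    obtain ⟨m, h1, h2, h3, h4⟩ := hAmem y hy
    have h5 := hg.height h1 h3 h4
    constructor <;> omega
  have hAfin : A.Finite := by
    refine (finite_ball (0 : V d) (2 * n)).subset fun y hy => ?_
    obtain ⟨m, h1, h2, h3, h4⟩ := hAmem y hy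
    have h5 := hg m h1 h3 y h4
    have h6 := nm_tri y (pt i m) 0
    simp only [sub_zero] at h6
    rw [nm_pt] at h6
    show nm (y - 0) ≤ 2 * n
    simp only [sub_zero]
    omega
  have hsb := sb_line i (a : ℤ) (N - a)
  have hNa : ((a : ℤ) + ((N - a : ℕ) : ℤ)) = (N : ℤ) := by omega
  rw [hNa] at hsb
  obtain ⟨l', hP, hlast, hz⟩ := Pool.Agent.W612.GP.sur d i hd A hAfin (pt i a) (pt i N)
    (line i a (N - a)) hsb.1.1 hsb.2.1 (by
      intro y hy
      have := hAh y hy
      simp only [pt_same]
      constructor <;> omega)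
  -- heights of the vertices of `l'`
  have hz' : ∀ z ∈ l', (a : ℤ) < z i ∧
      ((∃ m : ℕ, a < m ∧ m ≤ N ∧ z = pt i m ∧ z ∉ A) ∨ -K ≤ w z) := by
    intro z hzl
    have hne : z ≠ pt i a := by
      rintro rfl
      exact (List.nodup_cons.mp hP.2).1 hzl
    obtain ⟨h1, h2⟩ := hz z (List.mem_cons_of_mem _ hzl)
    rcases h2 with h2 | h2
    · rcases List.mem_cons.mp h2 with h2 | h2
      · exact absurd h2 hne
      · obtain ⟨k, hk1, hk2, rfl⟩ := mem_line.mp h2
        refine ⟨by simpa using hk1, Or.inl ⟨k.toNat, by omega, by omega, ?_, h1⟩⟩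
        congr 1; omega
    · obtain ⟨y, hy, hzy⟩ := id h2
      have h3 := hAh y hy
      have h4 := abs_le_nm (z - y) i
      simp only [Pi.sub_apply] at h4
      rw [abs_le] at h4
      refine ⟨by omega, Or.inr ?_⟩
      have h5 := notMem_of_nb h1 h2
      unfold Cl at h5
      simp only [Set.mem_ofPred_eq, not_lt] at h5
      exact h5
  -- length
  have hlen : N - a ≤ l'.length := by
    have hmem : pt i (N : ℤ) ∈ l' := by
      have h1 := List.mem_of_getLast? hlast
      rcases List.mem_cons.mp h1 with h1 | h1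
      · have := pt_inj i h1; omega
      · exact h1
    have h2 := nm_le_of_chain hP.1 _ hmem
    rw [← pt_sub, nm_pt] at h2
    omega
  set l'' := l'.take (n - a) with hl''
  have hlen'' : l''.length = n - a := by
    rw [hl'', List.length_take]; omega
  have hpre : l'' <+: l' := List.take_prefix _ _
  have hPa : IsP (pt i a :: l'') := hP.prefx ((List.prefix_cons_inj _).mpr hpre)
  refine ⟨line i 0 a ++ l'', ?_, ?_, ?_⟩
  · rw [List.length_append, length_line, hlen'']; omega
  · -- path
    have h0 := (sb_line i 0 a).1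
    have h0' := (sb_line i 0 a).2.1
    rw [zero_add] at h0'
    rw [pt_zero] at h0 h0'
    rw [← List.cons_append]
    refine h0.append (hPa.suffix (List.suffix_cons _ _)) ?_ ?_
    · intro x hx y hy hxy
      have h1 := (hz' y (hpre.subset hy)).1
      have h2 : x i ≤ a := by
        rcases List.mem_cons.mp hx with rfl | hx
        · simp
        · obtain ⟨k, hk1, hk2, rfl⟩ := mem_line.mp hx
          simp only [pt_same]; omega
      rw [hxy] at h2; omega
    · intro x hx y hy
      rw [h0'] at hx
      have hx' : x = pt i a := by simpa using hx.symm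
      subst hx'
      cases hl3 : l'' with
      | nil => rw [hl3] at hy; simp at hy
      | cons v t =>
        rw [hl3] at hy hPa
        have hy' : y = v := by simpa using hy.symm
        subst hy'
        exact (IsP.cons_iff.mp hPa).1
  · -- weight
    rw [wt_append]
    have h1 := wt_line w i a
    have h2 := wt_ge_of_exc (w := w) (K := K) l'' (hPa.2.sublist (List.sublist_cons_self _ _))
      ((Ioc a R).image fun k : ℕ => pt i (k : ℤ)) (by
        intro z hz
        obtain ⟨h3, h4⟩ := hz' z (hpre.subset hz)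
        rcases h4 with ⟨m, hm1, hm2, rfl, hm4⟩ | h4
        · -- on the line: height at most `n`
          have h5 := nm_le_of_chain hPa.1 _ hz
          rw [← pt_sub, nm_pt, hlen''] at h5
          have h6 : m ≤ n := by omega
          rcases le_or_gt m R with h7 | h7
          · right
            rw [mem_image]
            exact ⟨m, mem_Ioc.mpr ⟨hm1, h7⟩, rfl⟩
          · left
            by_contra hc
            push Not at hc
            apply hm4
            rw [hA]
            exact subset_hull _ _ ⟨m, by omega, h6, rfl, hc⟩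
        · exact Or.inl h4) hK
    have h3 : ∑ z ∈ (Ioc a R).image (fun k : ℕ => pt i (k : ℤ)), max (-w z) 0 =
        ∑ k ∈ Ioc a R, max (-w (pt i (k : ℤ))) 0 := by
      rw [sum_image]
      intro x _ y _ hxy
      have := pt_inj i hxy
      exact_mod_cast this
    have h4 : ray i R w = ray i a w + ∑ k ∈ Ioc a R, max (-w (pt i (k : ℤ))) 0 := by
      unfold ray
      have haR : a ≤ R := by omega
      have : Icc 1 R = Ioc 0 R := by ext; simp; omega
      have h' : Icc 1 a = Ioc 0 a := by ext; simp; omega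
      rw [this, h', sum_Ioc_consecutive _ (Nat.zero_le _) haR]
    rw [h3, hlen''] at h2
    rw [h4]
    have h5 : K * ((n - a : ℕ) : ℝ) ≤ K * n := by
      refine mul_le_mul_of_nonneg_left ?_ hK
      exact_mod_cast Nat.sub_le _ _
    linarith

end Pool.Agent.TH294.GL
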