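import Pool.Agent.TH294.GL.Posi
import Pool.Agent.W844.GP.Main

/-!
# MP_18bc13_pr: `L¹` convergence for `d ≥ 2`
-/

set_option autoImplicit false

open Finset MeasureTheory ProbabilityTheory Filter Topology
open scoped ENNReal

namespace Pool.Agent.TH294.GL

open Pool.Agent.W844.VG (V stp nm)
open Pool.Agent.W844.GP

variable {d : ℕ}

lemma Mn_le_ex (hd : 1 ≤ d) (w : V d → ℝ) (T : ℝ) (n : ℕ) :
    Mn w n ≤ T * n + Mn (ex T w) n := by
  obtain ⟨l, h1, h2, h3⟩ := exists_Mn hd w n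
  rw [← h3]
  have h4 : wt w l ≤ wt (fun x => ex T w x + T) l := wt_mono fun x _ => by
    unfold ex
    have := le_max_left (w x - T) 0
    linarith
  rw [wt_add, h1] at h4
  have h5 := le_Mn hd (w := ex T w) h1 h2
  linarith

/-- the truncation inequality -/
lemma clip_ineq {x M K T : ℝ} (hK : -K ≤ M) (hT : M ≤ T) :
    |x - M| ≤ |max (-K) (min x T) - M| + max (-K - x) 0 + max (x - T) 0 := by
  have h0 : (0 : ℝ) ≤ max (-K - x) 0 := le_max_right _ _
  have h1 : (0 : ℝ) ≤ max (x - T) 0 := le_max_right _ _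
  rcases le_or_gt x T with h | h
  · rw [min_eq_left h]
    rcases le_or_gt (-K) x with h' | h'
    · rw [max_eq_right h']; linarith
    · rw [max_eq_left h'.le]
      have h2 : -K - x ≤ max (-K - x) 0 := le_max_left _ _
      have h3 := le_abs_self (-K - M)
      have h4 := neg_abs_le (-K - M)
      rw [abs_le]
      constructor <;> linarith
  · rw [min_eq_right h.le, max_eq_right (hK.trans hT)]
    have h2 : x - T ≤ max (x - T) 0 := le_max_left _ _
    have h3 := le_abs_self (T - M)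
    have h4 := neg_abs_le (T - M)
    rw [abs_le]
    constructor <;> linarith

/-- pointwise splitting at scale `n` -/
lemma split_ineq (hd : 1 ≤ d) {w : V d → ℝ} {n : ℕ} (hn : 1 ≤ n) {M K T K' T' : ℝ} (hK : -K' ≤ M)
    (hT : M ≤ T') (hKK : K ≤ K') (hTT : T ≤ T') :
    ENNReal.ofReal |Mn w n / n - M| ≤
      ENNReal.ofReal |max (-K') (min (Mn w n / n) T') - M| +
      (n : ℝ≥0∞)⁻¹ * ENNReal.ofReal (-Mn w n - K * n) +
      (n : ℝ≥0∞)⁻¹ * ENNReal.ofReal (Mn (ex T w) n) := by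
  have hn0 : (0 : ℝ) < n := by exact_mod_cast hn
  have h1 := clip_ineq (x := Mn w n / n) hK hT
  have h2 : max (-K' - Mn w n / n) 0 ≤ (n : ℝ)⁻¹ * max (-Mn w n - K * n) 0 := by
    rw [mul_max_of_nonneg _ _ (by positivity), mul_zero]
    apply max_le_max _ le_rfl
    have : (n : ℝ)⁻¹ * (-Mn w n - K * n) = -K - Mn w n / n := by field_simp; ring
    rw [this]; linarith
  have h3 : max (Mn w n / n - T') 0 ≤ (n : ℝ)⁻¹ * Mn (ex T w) n := by
    apply max_le
    · have h4 := Mn_le_ex hd w T n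
      have h5 : Mn w n / n ≤ T + (n : ℝ)⁻¹ * Mn (ex T w) n := by
        rw [div_le_iff₀ hn0]
        have : (T + (n : ℝ)⁻¹ * Mn (ex T w) n) * n = T * n + Mn (ex T w) n := by
          field_simp
        rw [this]; exact h4
      linarith
    · exact mul_nonneg (by positivity) (Mn_nonneg hd (ex_nonneg T w) n)
  have h6 : |Mn w n / n - M| ≤ |max (-K') (min (Mn w n / n) T') - M| +
      (n : ℝ)⁻¹ * max (-Mn w n - K * n) 0 + (n : ℝ)⁻¹ * Mn (ex T w) n := by linarith
  refine (ENNReal.ofReal_le_ofReal h6).trans (le_of_eq ?_)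
  have h7 : 0 ≤ (n : ℝ)⁻¹ * max (-Mn w n - K * n) 0 :=
    mul_nonneg (by positivity) (le_max_right _ _)
  have h8 : 0 ≤ (n : ℝ)⁻¹ * Mn (ex T w) n :=
    mul_nonneg (by positivity) (Mn_nonneg hd (ex_nonneg T w) n)
  rw [ENNReal.ofReal_add (by positivity) h8, ENNReal.ofReal_add (by positivity) h7,
    ENNReal.ofReal_mul (by positivity), ENNReal.ofReal_mul (by positivity),
    ENNReal.ofReal_inv_of_pos hn0, ENNReal.ofReal_natCast]
  congr 3
  rcases le_or_gt 0 (-Mn w n - K * n) with h | h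
  · rw [max_eq_left h]
  · rw [max_eq_right h.le, ENNReal.ofReal_of_nonpos h.le, ENNReal.ofReal_zero]

/-- `L¹` convergence on the canonical space -/
theorem l1 (hd : 2 ≤ d) (ν : Measure ℝ) [IsProbabilityMeasure ν] {α : ℝ} (hα : 0 < α)
    (hM : ∫⁻ x, ENNReal.ofReal ((max x 0) ^ d * (max (Real.log (max x 0)) 0) ^ ((d : ℝ) + α)) ∂ν
      < ⊤)
    (hI : ∫⁻ t in Set.Ioi (0 : ℝ), ν (Set.Iio (-t)) ^ (2 * d) < ⊤) :
    ∃ M : ℝ, Tendsto (fun n : ℕ => ∫⁻ w, ENNReal.ofReal |Mn w n / n - M| ∂law ν d)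
      atTop (𝓝 0) := by
  obtain ⟨M, hconv⟩ := e2 d hd ν α hα hM
  refine ⟨M, ?_⟩
  have hd1 : 1 ≤ d := by omega
  have hae : ∀ᵐ w ∂law ν d, Tendsto (fun n : ℕ => Mn w n / (n : ℝ)) atTop (𝓝 M) := by
    filter_upwards [hconv] with w hw
    exact tendsto_of_lo hd1 hw.1 hw.2
  obtain ⟨K, hK0, C, hC, hneg⟩ := neg_bound hd ν hI
  rw [ENNReal.tendsto_nhds_zero]
  intro δ hδ
  -- choose a real `ε` with `2 ε ≤ δ`
  obtain ⟨ε, hε, hεδ⟩ : ∃ ε : ℝ, 0 < ε ∧ ENNReal.ofReal (3 * ε) ≤ δ := by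
    by_cases hδ' : δ = ⊤
    · exact ⟨1, one_pos, by simp [hδ']⟩
    · refine ⟨δ.toReal / 3, div_pos (ENNReal.toReal_pos hδ.ne' hδ') (by norm_num), ?_⟩
      rw [mul_div_cancel₀ _ (by norm_num : (3 : ℝ) ≠ 0), ENNReal.ofReal_toReal hδ']
  obtain ⟨T, hT0, hpos⟩ := pos_bound hd1 ν hα hM hε
  set K' := max K |M| with hK'
  set T' := max T |M| with hT'
  have hKM : -K' ≤ M := by
    have h1 := neg_abs_le M
    have h2 : |M| ≤ K' := le_max_right _ _
    linarith
  have hTM : M ≤ T' := (le_abs_self M).trans (le_max_right _ _)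
  -- bounded convergence
  have hclip : Tendsto (fun n : ℕ => ∫⁻ w, ENNReal.ofReal
      |max (-K') (min (Mn w n / n) T') - M| ∂law ν d) atTop (𝓝 0) := by
    have hm : ∀ n : ℕ, Measurable fun w : V d → ℝ =>
        ENNReal.ofReal |max (-K') (min (Mn w n / n) T') - M| := by
      intro n
      have h1 := meas_Mn (d := d) n
      have h2 : Measurable fun w : V d → ℝ => max (-K') (min (Mn w n / n) T') - M :=
        (measurable_const.max ((h1.div_const _).min measurable_const)).sub_const _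
      exact (measurable_norm.comp h2).ennreal_ofReal
    have hlim : ∀ᵐ w ∂law ν d, Tendsto (fun n : ℕ =>
        ENNReal.ofReal |max (-K') (min (Mn w n / n) T') - M|) atTop (𝓝 0) := by
      filter_upwards [hae] with w hw
      have h1 : Tendsto (fun n : ℕ => |max (-K') (min (Mn w n / n) T') - M|) atTop
          (𝓝 |max (-K') (min M T') - M|) :=
        ((tendsto_const_nhds.max (hw.min tendsto_const_nhds)).sub_const M).abs
      rw [min_eq_left hTM, max_eq_right hKM, sub_self, abs_zero] at h1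
      rw [← ENNReal.ofReal_zero]
      exact ENNReal.tendsto_ofReal h1
    have h := tendsto_lintegral_of_dominated_convergence (μ := law ν d)
      (fun _ => ENNReal.ofReal (K' + T' + |M|)) hm (fun n => Eventually.of_forall fun w => ?_)
      (by simp) hlim
    · simpa using h
    · apply ENNReal.ofReal_le_ofReal
      have hT'0 : 0 ≤ T' := hT0.trans (le_max_left _ _)
      have hK'0 : 0 ≤ K' := hK0.trans (le_max_left _ _)
      have h1 : max (-K') (min (Mn w n / n) T') ≤ T' := max_le (by linarith) (min_le_right _ _)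
      have h2 : -K' ≤ max (-K') (min (Mn w n / n) T') := le_max_left _ _
      have h3 := le_abs_self M
      have h4 := neg_abs_le M
      rw [abs_le]
      constructor <;> linarith
  have hclip' := (ENNReal.tendsto_nhds_zero.mp hclip) (ENNReal.ofReal ε) (by simpa using hε)
  have hCn : Tendsto (fun n : ℕ => (n : ℝ≥0∞)⁻¹ * C) atTop (𝓝 0) := by
    have h1 := ENNReal.Tendsto.mul_const (b := C) ENNReal.tendsto_inv_nat_nhds_zero (Or.inr hC.ne)
    simpa using h1
  have hCn' := (ENNReal.tendsto_nhds_zero.mp hCn) (ENNReal.ofReal ε) (by simpa using hε)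
  filter_upwards [hclip', hCn', eventually_ge_atTop 1] with n h1 h2 hn
  refine le_trans ?_ hεδ
  have hn0 : (0 : ℝ) < n := by exact_mod_cast hn
  have hnn : (n : ℝ≥0∞) ≠ 0 := by exact_mod_cast (by omega : n ≠ 0)
  have hm2 : Measurable fun w : V d → ℝ => (n : ℝ≥0∞)⁻¹ * ENNReal.ofReal (-Mn w n - K * n) :=
    (((meas_Mn n).neg.sub_const _).ennreal_ofReal).const_mul _
  have hm3 : Measurable fun w : V d → ℝ => (n : ℝ≥0∞)⁻¹ * ENNReal.ofReal (Mn (ex T w) n) :=
    (((meas_Mn n).comp (meas_ex T)).ennreal_ofReal).const_mul _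
  calc ∫⁻ w, ENNReal.ofReal |Mn w n / n - M| ∂law ν d
      ≤ ∫⁻ w, (ENNReal.ofReal |max (-K') (min (Mn w n / n) T') - M| +
      (n : ℝ≥0∞)⁻¹ * ENNReal.ofReal (-Mn w n - K * n) +
      (n : ℝ≥0∞)⁻¹ * ENNReal.ofReal (Mn (ex T w) n)) ∂law ν d :=
        lintegral_mono fun w => split_ineq hd1 hn hKM hTM (le_max_left _ _) (le_max_left _ _)
    _ = ∫⁻ w, ENNReal.ofReal |max (-K') (min (Mn w n / n) T') - M| ∂law ν d +
        (n : ℝ≥0∞)⁻¹ * ∫⁻ w, ENNReal.ofReal (-Mn w n - K * n) ∂law ν d +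
        (n : ℝ≥0∞)⁻¹ * ∫⁻ w, ENNReal.ofReal (Mn (ex T w) n) ∂law ν d := by
        rw [lintegral_add_right _ hm3, lintegral_add_right _ hm2,
          lintegral_const_mul' _ _ (ENNReal.inv_ne_top.mpr hnn),
          lintegral_const_mul' _ _ (ENNReal.inv_ne_top.mpr hnn)]
    _ ≤ ENNReal.ofReal ε + (n : ℝ≥0∞)⁻¹ * C + (n : ℝ≥0∞)⁻¹ * ENNReal.ofReal (ε * n) := by
        gcongr
        · exact hneg n
        · exact hpos n hn
    _ ≤ ENNReal.ofReal ε + ENNReal.ofReal ε + ENNReal.ofReal ε := by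
        gcongr
        rw [← ENNReal.ofReal_natCast, ← ENNReal.ofReal_inv_of_pos hn0,
          ← ENNReal.ofReal_mul (by positivity)]
        apply ENNReal.ofReal_le_ofReal
        have : (n : ℝ)⁻¹ * (ε * n) = ε := by field_simp
        rw [this]
    _ = ENNReal.ofReal (3 * ε) := by
        rw [← ENNReal.ofReal_add hε.le hε.le, ← ENNReal.ofReal_add (by positivity) hε.le]
        congr 1; ring

/-- integrability of `M_n` -/
theorem integ (hd : 2 ≤ d) (ν : Measure ℝ) [IsProbabilityMeasure ν] {α : ℝ} (hα : 0 < α)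
    (hM : ∫⁻ x, ENNReal.ofReal ((max x 0) ^ d * (max (Real.log (max x 0)) 0) ^ ((d : ℝ) + α)) ∂ν
      < ⊤)
    (hI : ∫⁻ t in Set.Ioi (0 : ℝ), ν (Set.Iio (-t)) ^ (2 * d) < ⊤) (n : ℕ) :
    ∫⁻ w, ENNReal.ofReal |Mn w n| ∂law ν d < ⊤ := by
  have hd1 : 1 ≤ d := by omega
  rcases Nat.eq_zero_or_pos n with rfl | hn
  · have : ∀ w : V d → ℝ, Mn w 0 = 0 := by
      intro w
      obtain ⟨l, h1, -, h3⟩ := exists_Mn hd1 w 0
      rw [List.length_eq_zero_iff] at h1
      subst h1
      rw [← h3]; simp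
    simp [this]
  obtain ⟨K, hK0, C, hC, hneg⟩ := neg_bound hd ν hI
  obtain ⟨T, hT0, hpos⟩ := pos_bound hd1 ν hα hM one_pos
  have hm3 : Measurable fun w : V d → ℝ => ENNReal.ofReal (Mn (ex T w) n) :=
    ((meas_Mn n).comp (meas_ex T)).ennreal_ofReal
  have hm2 : Measurable fun w : V d → ℝ => ENNReal.ofReal (-Mn w n - K * n) :=
    ((meas_Mn n).neg.sub_const _).ennreal_ofReal
  have h1 : ∀ w : V d → ℝ, ENNReal.ofReal |Mn w n| ≤ ENNReal.ofReal (K * n + T * n) +
      ENNReal.ofReal (-Mn w n - K * n) + ENNReal.ofReal (Mn (ex T w) n) := by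
    intro w
    have hx := Mn_nonneg hd1 (ex_nonneg T w) n
    have h2 := Mn_le_ex hd1 w T n
    have hKn : 0 ≤ K * n := by positivity
    have hTn : 0 ≤ T * n := by positivity
    have h3 : |Mn w n| ≤ (K * n + T * n) + max (-Mn w n - K * n) 0 + Mn (ex T w) n := by
      have h4 := le_max_left (-Mn w n - K * n) 0
      have h5 := le_max_right (-Mn w n - K * n) 0
      rw [abs_le]
      constructor <;> linarith
    refine (ENNReal.ofReal_le_ofReal h3).trans ?_
    rw [ENNReal.ofReal_add (add_nonneg (by positivity) (le_max_right _ _)) hx,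
      ENNReal.ofReal_add (by positivity) (le_max_right _ _)]
    refine add_le_add (add_le_add le_rfl ?_) le_rfl
    rcases le_or_gt 0 (-Mn w n - K * n) with h | h
    · rw [max_eq_left h]
    · rw [max_eq_right h.le, ENNReal.ofReal_zero, ENNReal.ofReal_of_nonpos h.le]
  refine (lintegral_mono h1).trans_lt ?_
  rw [lintegral_add_right _ hm3, lintegral_add_right _ hm2, lintegral_const, measure_univ, mul_one]
  exact ENNReal.add_lt_top.mpr ⟨ENNReal.add_lt_top.mpr ⟨ENNReal.ofReal_lt_top,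
    (hneg n).trans_lt hC⟩, (hpos n hn).trans_lt ENNReal.ofReal_lt_top⟩

end Pool.Agent.TH294.GL
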