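import Pool.Agent.TH294.GL.Cond
import Pool.Agent.W844.GP.Fin
import Pool.Agent.W692.GP.L1

/-!
# MP_18bc13_pr: the negative part of `M_n` is uniformly integrable at scale `n`
-/

set_option autoImplicit false

open Finset MeasureTheory ProbabilityTheory Filter Topology
open scoped ENNReal

namespace Pool.Agent.TH294.GL

open Pool.Agent.W844.VG
open Pool.Agent.W844.GP

variable {d : ℕ}

/-- the best weight of an `n`-step path from the origin -/
noncomputable def Mn (w : V d → ℝ) (n : ℕ) : ℝ := ⨆ p : PI d n, ∑ i : Fin n, w (p.1 i.succ)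

/-! ### directions -/

/-- reflection of one coordinate -/
def rfl' (i : Fin d) : V d ≃ V d where
  toFun x j := if j = i then -x j else x j
  invFun x j := if j = i then -x j else x j
  left_inv x := by funext j; by_cases h : j = i <;> simp [h]
  right_inv x := by funext j; by_cases h : j = i <;> simp [h]

/-- the symmetry attached to a signed direction -/
def sy (σ : Fin d × Bool) : V d ≃ V d := if σ.2 then Equiv.refl _ else rfl' σ.1

/-- the `k`-th point of the ray with signed direction `σ` -/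
def PP (σ : Fin d × Bool) (k : ℕ) : V d := sy σ (pt σ.1 (k : ℤ))

lemma sy_true (i : Fin d) : sy (i, true) = Equiv.refl (V d) := by simp [sy]

lemma sy_false (i : Fin d) : sy (i, false) = rfl' i := by simp [sy]

lemma sy_zero (σ : Fin d × Bool) : sy σ 0 = 0 := by
  obtain ⟨i, b⟩ := σ
  cases b
  · rw [sy_false]; funext j; simp [rfl']
  · rw [sy_true]; rfl

lemma sy_adj (σ : Fin d × Bool) {x y : V d} (h : adj x y) : adj (sy σ x) (sy σ y) := by
  obtain ⟨i, b⟩ := σ
  cases b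
  · rw [sy_false]
    unfold adj at h ⊢
    rw [← h]
    refine sum_congr rfl fun j _ => ?_
    show |(if j = i then -y j else y j) - (if j = i then -x j else x j)| = _
    split_ifs
    · rw [← abs_neg]; congr 1; ring
    · rfl
  · rw [sy_true]; exact h

lemma wt_sy (σ : Fin d × Bool) (w : V d → ℝ) (l : List (V d)) :
    wt (fun x => w (sy σ x)) l = wt w (l.map (sy σ)) := by
  unfold wt; rw [List.map_map]; rfl

lemma lo_sy {σ : Fin d × Bool} {w : V d → ℝ} {n : ℕ} {a : ℝ}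
    (h : Lo (fun x => w (sy σ x)) n a) : Lo w n a := by
  obtain ⟨l, h1, h2, h3⟩ := h
  refine ⟨l.map (sy σ), by simpa using h1, ?_, ?_⟩
  · have : (0 : V d) :: l.map (sy σ) = (0 :: l).map (sy σ) := by simp [sy_zero]
    rw [this]
    refine ⟨?_, h2.2.map (sy σ).injective⟩
    rw [List.isChain_map]
    exact h2.1.imp fun a b hab => sy_adj σ hab
  · rw [← wt_sy]; exact h3

lemma PP_apply (σ : Fin d × Bool) (k : ℕ) :
    PP σ k = pt σ.1 (if σ.2 then (k : ℤ) else -(k : ℤ)) := by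
  obtain ⟨i, b⟩ := σ
  unfold PP
  cases b
  · rw [sy_false]
    funext j
    show (if j = i then -(pt i (k : ℤ) : V d) j else (pt i (k : ℤ) : V d) j) = _
    by_cases h : j = i
    · subst h; simp
    · simp [h, pt_ne h]
  · rw [sy_true]; simp

lemma PP_inj {σ σ' : Fin d × Bool} {k k' : ℕ} (hk : 1 ≤ k) (h : PP σ k = PP σ' k') :
    σ = σ' := by
  obtain ⟨i, b⟩ := σ
  obtain ⟨i', b'⟩ := σ'
  rw [PP_apply, PP_apply] at h
  have h1 := congrFun h i
  simp only [pt_same] at h1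
  by_cases hii : i = i'
  · subst hii
    simp only [pt_same] at h1
    cases b <;> cases b' <;> simp at h1 ⊢ <;> omega
  · rw [pt_ne hii] at h1
    cases b <;> simp at h1 <;> omega

/-! ### the good event -/

/-- all `2 d` rays are good -/
def GA (K : ℝ) (R : ℕ) : Set (V d → ℝ) :=
  {w | ∀ σ : Fin d × Bool, Good K σ.1 R fun x => w (sy σ x)}

lemma good_iff {K : ℝ} {i : Fin d} {R : ℕ} {w : V d → ℝ} :
    Good K i R w ↔ ∀ m : ℕ, R < 2 * m →
      ¬ (pt i (m : ℤ) ∈ Cl K w ∧ Far K w (pt i (m : ℤ)) (m / 8 + 1)) := by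
  unfold Good Far
  constructor
  · rintro h m hm ⟨h1, y, h2, h3⟩
    have := h m hm h1 y h2
    omega
  · intro h m hm h1 y h2
    by_contra hc
    exact h m hm ⟨h1, y, h2, by omega⟩

lemma meas_closed (K : ℝ) (x : V d) : MeasurableSet {w : V d → ℝ | x ∈ Cl K w} :=
  measurableSet_lt (measurable_pi_apply x) measurable_const

lemma meas_good (K : ℝ) (i : Fin d) (R : ℕ) : MeasurableSet {w : V d → ℝ | Good K i R w} := by
  have h : {w : V d → ℝ | Good K i R w} = ⋂ m : ℕ, {w | R < 2 * m →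
      ¬ (pt i (m : ℤ) ∈ Cl K w ∧ Far K w (pt i (m : ℤ)) (m / 8 + 1))} := by
    ext w; simp only [Set.mem_ofPred_eq, Set.mem_iInter]; exact good_iff
  rw [h]
  refine MeasurableSet.iInter fun m => ?_
  by_cases hm : R < 2 * m
  · have h2 : {w : V d → ℝ | R < 2 * m →
      ¬ (pt i (m : ℤ) ∈ Cl K w ∧ Far K w (pt i (m : ℤ)) (m / 8 + 1))} =
      ({w | pt i (m : ℤ) ∈ Cl K w} ∩ {w | Far K w (pt i (m : ℤ)) (m / 8 + 1)})ᶜ := by
      ext w; simp [hm]
    rw [h2]
    exact ((meas_closed K _).inter ((Pool.Agent.W347.GP.meas d).2.2.1 K _ _)).compl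
  · have h2 : {w : V d → ℝ | R < 2 * m →
      ¬ (pt i (m : ℤ) ∈ Cl K w ∧ Far K w (pt i (m : ℤ)) (m / 8 + 1))} = Set.univ := by
      ext w; simp [hm]
    rw [h2]; exact MeasurableSet.univ

lemma meas_GA (K : ℝ) (R : ℕ) : MeasurableSet (GA (d := d) K R) := by
  have h : GA (d := d) K R = ⋂ σ : Fin d × Bool,
      (fun (w : V d → ℝ) x => w (sy σ x)) ⁻¹' {w | Good K σ.1 R w} := by
    ext w; simp [GA]
  rw [h]
  refine MeasurableSet.iInter fun σ => ?_
  exact (by fun_prop : Measurable fun (w : V d → ℝ) x => w (sy σ x)) (meas_good K _ _)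

lemma clDep_GA (K : ℝ) (R : ℕ) : ClDep K (GA (d := d) K R)ᶜ := by
  intro w w' h
  have h1 : ∀ σ : Fin d × Bool, Cl K (fun x => w (sy σ x)) = Cl K (fun x => w' (sy σ x)) := by
    intro σ
    ext x
    have h2 : sy σ x ∈ Cl K w ↔ sy σ x ∈ Cl K w' := by rw [h]
    exact h2
  have h2 : ∀ σ : Fin d × Bool, Good K σ.1 R (fun x => w (sy σ x)) ↔
      Good K σ.1 R (fun x => w' (sy σ x)) := by
    intro σ; unfold Good; rw [h1 σ]
  simp only [GA, Set.mem_compl_iff, Set.mem_ofPred_eq]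
  rw [not_iff_not]
  exact forall_congr' h2

lemma GA_mono {K : ℝ} {R R' : ℕ} (h : R ≤ R') : GA (d := d) K R ⊆ GA K R' :=
  fun _ hw σ => (hw σ).mono h

/-! ### probability of the bad event -/

lemma summable_quarter : Summable fun m : ℕ => Real.exp (-(m : ℝ) / 4) := by
  have h := Real.summable_exp_neg_nat.mul_left 1
  have h2 : (fun m : ℕ => Real.exp (-(m : ℝ) / 4)) = fun m : ℕ => (Real.exp (-(1/4)))^m := by
    funext m
    rw [← Real.exp_nat_mul]; congr 1; ring
  rw [h2]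
  apply summable_geometric_of_lt_one (Real.exp_pos _).le
  rw [Real.exp_lt_one_iff]; norm_num

lemma law_not_good (ν : Measure ℝ) [IsProbabilityMeasure ν] {K : ℝ}
    (hK : ν (Set.Iio (-K)) ≤ q0 d) (i : Fin d) (R : ℕ) :
    law ν d {w | ¬ Good K i R w} ≤
      ENNReal.ofReal (Real.exp (-(R : ℝ) / 8) * ∑' m : ℕ, Real.exp (-(m : ℝ) / 4)) := by
  have h1 : {w : V d → ℝ | ¬ Good K i R w} ⊆ ⋃ m : ℕ, {w | R < 2 * m ∧
      pt i (m : ℤ) ∈ Cl K w ∧ Far K w (pt i (m : ℤ)) (m / 8 + 1)} := by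
    intro w hw
    simp only [Set.mem_ofPred_eq, good_iff] at hw
    push Not at hw
    obtain ⟨m, hm, h⟩ := hw
    exact Set.mem_iUnion.mpr ⟨m, hm, h⟩
  refine (measure_mono h1).trans ((measure_iUnion_le _).trans ?_)
  rw [← tsum_mul_left, ENNReal.ofReal_tsum_of_nonneg (fun _ => by positivity)
    (summable_quarter.mul_left _)]
  refine ENNReal.tsum_le_tsum fun m => ?_
  by_cases hm : R < 2 * m
  · refine (measure_mono (t := {w : V d → ℝ | pt i (m : ℤ) ∈ Cl K w ∧
        Far K w (pt i (m : ℤ)) (m / 8 + 1)}) (fun w hw => ⟨hw.2.1, hw.2.2⟩)).trans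
      ((Pool.Agent.W346.GP.tail d ν K hK (pt i (m : ℤ)) (m / 8 + 1)).2.trans ?_)
    apply ENNReal.ofReal_le_ofReal
    rw [← Real.exp_add]
    apply Real.exp_le_exp.mpr
    have h2 : (m : ℝ) < 8 * ((m / 8 + 1 : ℕ) : ℝ) := by
      exact_mod_cast (by omega : m < 8 * (m / 8 + 1))
    have h3 : (R : ℝ) < 2 * m := by exact_mod_cast hm
    linarith
  · have h2 : {w : V d → ℝ | R < 2 * m ∧
      pt i (m : ℤ) ∈ Cl K w ∧ Far K w (pt i (m : ℤ)) (m / 8 + 1)} = ∅ := by
      ext w; simp [hm]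
    rw [h2, measure_empty]; exact bot_le

lemma law_not_GA (ν : Measure ℝ) [IsProbabilityMeasure ν] {K : ℝ}
    (hK : ν (Set.Iio (-K)) ≤ q0 d) (R : ℕ) :
    law ν d (GA K R)ᶜ ≤ ENNReal.ofReal (2 * d * (∑' m : ℕ, Real.exp (-(m : ℝ) / 4)) *
      Real.exp (-(R : ℝ) / 8)) := by
  have h1 : (GA (d := d) K R)ᶜ ⊆ ⋃ σ : Fin d × Bool,
      {w | (fun x => w (sy σ x)) ∈ {w | ¬ Good K σ.1 R w}} := by
    intro w hw
    simp only [GA, Set.mem_compl_iff, Set.mem_ofPred_eq, not_forall] at hw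
    simpa using hw
  refine (measure_mono h1).trans ((measure_iUnion_fintype_le _ _).trans ?_)
  have h2 : ∀ σ : Fin d × Bool, law ν d {w | (fun x => w (sy σ x)) ∈ {w | ¬ Good K σ.1 R w}} ≤
      ENNReal.ofReal (Real.exp (-(R : ℝ) / 8) * ∑' m : ℕ, Real.exp (-(m : ℝ) / 4)) := by
    intro σ
    rw [law_relab ν (sy σ)]
    exact law_not_good ν hK _ _
  refine (sum_le_sum fun σ _ => h2 σ).trans (le_of_eq ?_)
  rw [sum_const, card_univ, Fintype.card_prod, Fintype.card_fin, Fintype.card_bool, nsmul_eq_mul]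
  rw [← ENNReal.ofReal_natCast, ← ENNReal.ofReal_mul (by positivity)]
  congr 1
  push_cast
  ring

/-! ### the points of the rays -/

/-- the smallest of the negative parts at the points `PP σ (κ σ)` -/
noncomputable def ff (κ : Fin d × Bool → ℕ) (w : V d → ℝ) : ℝ :=
  ⨅ σ : Fin d × Bool, max (-w (PP σ (κ σ))) 0

/-- the points `PP σ (κ σ)` -/
def SS (κ : Fin d × Bool → ℕ) : Finset (V d) := univ.image fun σ => PP σ (κ σ)

lemma card_SS {κ : Fin d × Bool → ℕ} (hκ : ∀ σ, 1 ≤ κ σ) : (SS κ).card = 2 * d := by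
  unfold SS
  rw [card_image_of_injective _ fun σ σ' h => PP_inj (hκ σ) h]
  simp [mul_comm]

lemma bdd_ff (κ : Fin d × Bool → ℕ) (w : V d → ℝ) :
    BddBelow (Set.range fun σ : Fin d × Bool => max (-w (PP σ (κ σ))) 0) :=
  (Set.finite_range _).bddBelow

lemma meas_ff (κ : Fin d × Bool → ℕ) : Measurable (ff κ) := by
  unfold ff
  exact Measurable.iInf fun σ => ((measurable_pi_apply _).neg).max measurable_const

lemma ff_nonneg (κ : Fin d × Bool → ℕ) (w : V d → ℝ) : 0 ≤ ff κ w :=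
  Real.iInf_nonneg fun _ => le_max_right _ _

lemma ff_lt {κ : Fin d × Bool → ℕ} {w : V d → ℝ} {t : ℝ} (ht : 0 ≤ t) (h : t < ff κ w) :
    ∀ x ∈ SS κ, w x < -t := by
  intro x hx
  obtain ⟨σ, -, rfl⟩ := mem_image.mp hx
  have h1 : t < max (-w (PP σ (κ σ))) 0 := h.trans_le (ciInf_le (bdd_ff κ w) σ)
  rcases lt_max_iff.mp h1 with h2 | h2
  · linarith
  · exact absurd h2 (not_lt.mpr ht)

/-- pointwise bound on the good event -/
lemma pointwise (hd : 2 ≤ d) {w : V d → ℝ} {K : ℝ} (hK : 0 ≤ K) {R : ℕ} (hR : 64 ≤ R)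
    (hw : w ∈ GA K R) (n : ℕ) :
    ENNReal.ofReal (-Mn w n - K * n) ≤ (R : ℝ≥0∞) *
      ∑ κ ∈ Fintype.piFinset (fun _ : Fin d × Bool => Icc 1 R), ENNReal.ofReal (ff κ w) := by
  have hne : (Icc 1 R).Nonempty := ⟨1, by simp; omega⟩
  have h1 : ∀ σ : Fin d × Bool, ∃ k ∈ Icc 1 R, ∀ k' ∈ Icc 1 R,
      max (-w (PP σ k')) 0 ≤ max (-w (PP σ k)) 0 := fun σ =>
    exists_max_image (Icc 1 R) (fun k => max (-w (PP σ k)) 0) hne
  choose κ hκ hmax using h1
  have h2 : ∀ σ : Fin d × Bool, -Mn w n - K * n ≤ R * max (-w (PP σ (κ σ))) 0 := by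
    intro σ
    have h3 := lo_sy (geo hd hK σ.1 hR (hw σ) n)
    rw [lo_iff (by omega)] at h3
    change _ ≤ Mn w n at h3
    have h4 : ray σ.1 R (fun x => w (sy σ x)) ≤ R * max (-w (PP σ (κ σ))) 0 := by
      unfold ray
      calc ∑ k ∈ Icc 1 R, max (-w (sy σ (pt σ.1 (k : ℤ)))) 0 
          ≤ ∑ _k ∈ Icc 1 R, max (-w (PP σ (κ σ))) 0 := sum_le_sum fun k hk => hmax σ k hk
        _ = _ := by rw [sum_const, Nat.card_Icc, nsmul_eq_mul]; simp
    linarith
  have hRpos : (0 : ℝ) < R := by exact_mod_cast (by omega : 0 < R)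
  have hne2 : Nonempty (Fin d × Bool) := ⟨(⟨0, by omega⟩, true)⟩
  have h5 : -Mn w n - K * n ≤ R * ff κ w := by
    rw [← div_le_iff₀' hRpos]
    unfold ff
    refine le_ciInf fun σ => ?_
    rw [div_le_iff₀' hRpos]
    exact h2 σ
  refine (ENNReal.ofReal_le_ofReal h5).trans ?_
  rw [ENNReal.ofReal_mul hRpos.le, ENNReal.ofReal_natCast]
  gcongr
  exact single_le_sum (f := fun κ => ENNReal.ofReal (ff κ w)) (fun _ _ => bot_le)
    (Fintype.mem_piFinset.mpr hκ)

/-- the event attached to the `j`-th scale -/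
def BB (K : ℝ) (j : ℕ) : Set (V d → ℝ) := if j = 0 then Set.univ else (GA K (63 + j))ᶜ

lemma meas_BB (K : ℝ) (j : ℕ) : MeasurableSet (BB (d := d) K j) := by
  unfold BB; split_ifs
  · exact MeasurableSet.univ
  · exact (meas_GA K _).compl

lemma clDep_BB (K : ℝ) (j : ℕ) : ClDep K (BB (d := d) K j) := by
  unfold BB; split_ifs
  · intro w w' _; simp
  · exact clDep_GA K _

lemma law_BB (ν : Measure ℝ) [IsProbabilityMeasure ν] {K : ℝ} (hK : ν (Set.Iio (-K)) ≤ q0 d) :
    ∃ C : ℝ, 0 ≤ C ∧ ∀ j : ℕ, law ν d (BB K j) ≤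
      ENNReal.ofReal (C * Real.exp (-((64 + j : ℕ) : ℝ) / 8)) := by
  set S := ∑' m : ℕ, Real.exp (-(m : ℝ) / 4) with hS
  have hS0 : 0 ≤ S := tsum_nonneg fun _ => (Real.exp_pos _).le
  refine ⟨Real.exp 8 + 2 * d * S * Real.exp (1 / 8), by positivity, fun j => ?_⟩
  unfold BB
  split_ifs with hj
  · subst hj
    rw [measure_univ, ← ENNReal.ofReal_one]
    apply ENNReal.ofReal_le_ofReal
    have h1 : Real.exp 8 * Real.exp (-((64 + 0 : ℕ) : ℝ) / 8) = 1 := by
      rw [← Real.exp_add]; norm_num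
    have h2 : 0 ≤ 2 * d * S * Real.exp (1 / 8) * Real.exp (-((64 + 0 : ℕ) : ℝ) / 8) := by positivity
    nlinarith
  · refine (law_not_GA ν hK (63 + j)).trans ?_
    apply ENNReal.ofReal_le_ofReal
    have h1 : Real.exp (1 / 8) * Real.exp (-((64 + j : ℕ) : ℝ) / 8) =
        Real.exp (-((63 + j : ℕ) : ℝ) / 8) := by
      rw [← Real.exp_add]; congr 1; push_cast; ring
    have h2 : 0 ≤ Real.exp 8 * Real.exp (-((64 + j : ℕ) : ℝ) / 8) := by positivity
    calc 2 * d * S * Real.exp (-((63 + j : ℕ) : ℝ) / 8)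
        = 2 * d * S * (Real.exp (1 / 8) * Real.exp (-((64 + j : ℕ) : ℝ) / 8)) := by rw [h1]
      _ ≤ _ := by nlinarith

/-- almost surely some scale is good -/
lemma ae_exists_good (ν : Measure ℝ) [IsProbabilityMeasure ν] {K : ℝ}
    (hK : ν (Set.Iio (-K)) ≤ q0 d) : ∀ᵐ w ∂law ν d, ∃ R, 64 ≤ R ∧ w ∈ GA K R := by
  obtain ⟨C, hC, h⟩ := law_BB (d := d) ν hK
  have h1 : ∀ j : ℕ, law ν d {w | ¬ ∃ R, 64 ≤ R ∧ w ∈ GA K R} ≤
      ENNReal.ofReal (C * Real.exp (-((64 + (j + 1) : ℕ) : ℝ) / 8)) := by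
    intro j
    refine (measure_mono fun w hw => ?_).trans (h (j + 1))
    unfold BB
    rw [if_neg (by omega)]
    intro hc
    exact hw ⟨63 + (j + 1), by omega, hc⟩
  have h2 : Tendsto (fun j : ℕ => ENNReal.ofReal (C * Real.exp (-((64 + (j + 1) : ℕ) : ℝ) / 8)))
      atTop (𝓝 0) := by
    rw [← ENNReal.ofReal_zero]
    apply ENNReal.tendsto_ofReal
    have h3 : Tendsto (fun j : ℕ => Real.exp (-((64 + (j + 1) : ℕ) : ℝ) / 8)) atTop (𝓝 0) := by
      apply Real.tendsto_exp_atBot.comp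
      have h4 : Tendsto (fun j : ℕ => ((64 + (j + 1) : ℕ) : ℝ)) atTop atTop := by
        apply tendsto_natCast_atTop_atTop.comp
        exact tendsto_atTop_mono (fun n => by show n ≤ 64 + (n + 1); omega) tendsto_id
      have h5 := h4.const_mul_atTop (by norm_num : (0 : ℝ) < 1 / 8)
      have h6 := tendsto_neg_atTop_atBot.comp h5
      refine h6.congr fun j => ?_
      simp only [Function.comp]
      ring
    simpa using h3.const_mul C
  rw [ae_iff]
  exact le_antisymm (ge_of_tendsto' h2 h1) bot_le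

/-- expectation bound for the negative part -/
theorem neg_bound (hd : 2 ≤ d) (ν : Measure ℝ) [IsProbabilityMeasure ν]
    (hI : ∫⁻ t in Set.Ioi (0 : ℝ), ν (Set.Iio (-t)) ^ (2 * d) < ⊤) :
    ∃ K : ℝ, 0 ≤ K ∧ ∃ C : ℝ≥0∞, C < ⊤ ∧ ∀ n : ℕ,
      ∫⁻ w, ENNReal.ofReal (-Mn w n - K * n) ∂law ν d ≤ C := by
  obtain ⟨K, hK0, hK⟩ := Pool.Agent.W692.GP.exists_K d ν
  refine ⟨K, hK0, ?_⟩
  by_cases hp : ν (Set.Iio (-K)) = 0
  · -- no closed vertices
    refine ⟨0, ENNReal.zero_lt_top, fun n => ?_⟩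
    have h1 : ∀ᵐ w ∂law ν d, ∀ x, -K ≤ w x := by
      rw [ae_all_iff]
      intro x
      rw [ae_iff]
      have : {w : V d → ℝ | ¬ -K ≤ w x} = {w | w x ∈ Set.Iio (-K)} := by ext w; simp
      rw [this, law_eval ν x measurableSet_Iio, hp]
    have h2 : ∀ᵐ w ∂law ν d, ENNReal.ofReal (-Mn w n - K * n) = 0 := by
      filter_upwards [h1] with w hw
      apply ENNReal.ofReal_of_nonpos
      have h3 : Lo w n (-(K * n)) := by
        refine ⟨line (⟨0, by omega⟩ : Fin d) 0 n, length_line _ _ _, ?_, ?_⟩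
        · have := (sb_line (⟨0, by omega⟩ : Fin d) 0 n).isP
          simpa using this
        · have := le_wt (w := w) (K := K) (line (⟨0, by omega⟩ : Fin d) 0 n) fun x _ => hw x
          rwa [length_line] at this
      rw [lo_iff (by omega)] at h3
      change _ ≤ Mn w n at h3
      linarith
    rw [lintegral_congr_ae h2, lintegral_zero]
  · obtain ⟨C, hC, hBB⟩ := law_BB (d := d) ν hK
    set c : ℝ≥0∞ := ENNReal.ofReal K + (ν (Set.Iio (-K)) ^ (2 * d))⁻¹ *
        ∫⁻ t in Set.Ioi (0 : ℝ), ν (Set.Iio (-t)) ^ (2 * d) with hc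
    have hctop : c < ⊤ := by
      rw [hc]
      refine ENNReal.add_lt_top.mpr ⟨ENNReal.ofReal_lt_top, ENNReal.mul_lt_top ?_ hI⟩
      exact ENNReal.inv_lt_top.mpr (pos_iff_ne_zero.mpr (pow_ne_zero _ hp))
    refine ⟨∑' j : ℕ, ((64 + j : ℕ) : ℝ≥0∞) * (((64 + j : ℕ) : ℝ≥0∞) ^ (2 * d) *
      (ENNReal.ofReal (C * Real.exp (-((64 + j : ℕ) : ℝ) / 8)) * c)), ?_, fun n => ?_⟩
    · -- finiteness
      have h1 : ∀ j : ℕ, ((64 + j : ℕ) : ℝ≥0∞) * (((64 + j : ℕ) : ℝ≥0∞) ^ (2 * d) *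
          (ENNReal.ofReal (C * Real.exp (-((64 + j : ℕ) : ℝ) / 8)) * c)) =
          ENNReal.ofReal (C * (((64 + j : ℕ) : ℝ) ^ (2 * d + 1) *
            Real.exp (-(1 / 8) * ((64 + j : ℕ) : ℝ)))) * c := by
        intro j
        have h2 : C * (((64 + j : ℕ) : ℝ) ^ (2 * d + 1) * Real.exp (-(1 / 8) * ((64 + j : ℕ) : ℝ))) =
            ((64 + j : ℕ) : ℝ) ^ (2 * d + 1) * (C * Real.exp (-((64 + j : ℕ) : ℝ) / 8)) := by
          have : -(1 / 8) * ((64 + j : ℕ) : ℝ) = -((64 + j : ℕ) : ℝ) / 8 := by ring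
          rw [this]; ring
        rw [h2, ENNReal.ofReal_mul (p := ((64 + j : ℕ) : ℝ) ^ (2 * d + 1)) (by positivity),
          ENNReal.ofReal_pow (by positivity), ENNReal.ofReal_natCast]
        ring
      rw [tsum_congr h1, ENNReal.tsum_mul_right]
      refine ENNReal.mul_lt_top ?_ hctop
      have h3 : Summable fun j : ℕ => C * (((64 + j : ℕ) : ℝ) ^ (2 * d + 1) *
            Real.exp (-(1 / 8) * ((64 + j : ℕ) : ℝ))) := by
        apply Summable.mul_left
        have h4 := Real.summable_pow_mul_exp_neg_nat_mul (2 * d + 1) (by norm_num : (0:ℝ) < 1 / 8)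
        have h5 := (summable_nat_add_iff 64).mpr h4
        refine h5.congr fun j => ?_
        rw [add_comm j 64]
      rw [← ENNReal.ofReal_tsum_of_nonneg (fun j => by positivity) h3]
      exact ENNReal.ofReal_lt_top
    · -- the bound
      have h1 : ∀ᵐ w ∂law ν d, ENNReal.ofReal (-Mn w n - K * n) ≤
          ∑' j : ℕ, (BB K j).indicator (fun w => ((64 + j : ℕ) : ℝ≥0∞) *
            ∑ κ ∈ Fintype.piFinset (fun _ : Fin d × Bool => Icc 1 (64 + j)),
              ENNReal.ofReal (ff κ w)) w := by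
        filter_upwards [ae_exists_good (d := d) ν hK] with w hw
        classical
        have hex : ∃ j : ℕ, w ∈ GA K (64 + j) := by
          obtain ⟨R, hR, h⟩ := hw
          exact ⟨R - 64, by rwa [Nat.add_sub_cancel' hR]⟩
        have h2 := Nat.find_spec hex
        set j := Nat.find hex with hj
        have h3 : w ∈ BB K j := by
          unfold BB
          split_ifs with hj0
          · trivial
          · intro hcon
            have h4 : w ∈ GA K (64 + (j - 1)) := by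
              rwa [show 64 + (j - 1) = 63 + j by omega]
            have := Nat.find_min' hex h4
            omega
        refine le_trans ?_ (ENNReal.le_tsum j)
        rw [Set.indicator_of_mem h3]
        exact pointwise hd hK0 (by omega) h2 n
      refine (lintegral_mono_ae h1).trans ?_
      have hmeas : ∀ j : ℕ, Measurable fun w : V d → ℝ => ((64 + j : ℕ) : ℝ≥0∞) *
            ∑ κ ∈ Fintype.piFinset (fun _ : Fin d × Bool => Icc 1 (64 + j)),
              ENNReal.ofReal (ff κ w) := fun j =>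
        (Finset.measurable_sum _ fun κ _ => (meas_ff κ).ennreal_ofReal).const_mul _
      rw [lintegral_tsum fun j => ((hmeas j).indicator (meas_BB K j)).aemeasurable]
      refine ENNReal.tsum_le_tsum fun j => ?_
      rw [lintegral_indicator (meas_BB K j), lintegral_const_mul _
        (Finset.measurable_sum _ fun κ _ => (meas_ff κ).ennreal_ofReal)]
      gcongr
      rw [lintegral_finsetSum _ fun κ _ => (meas_ff κ).ennreal_ofReal]
      have h2 : ∀ κ ∈ Fintype.piFinset (fun _ : Fin d × Bool => Icc 1 (64 + j)),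
          ∫⁻ w in BB K j, ENNReal.ofReal (ff κ w) ∂law ν d ≤
            ENNReal.ofReal (C * Real.exp (-((64 + j : ℕ) : ℝ) / 8)) * c := by
        intro κ hκ
        have hκ1 : ∀ σ, 1 ≤ κ σ := fun σ => (mem_Icc.mp (Fintype.mem_piFinset.mp hκ σ)).1
        have h3 := lint_bound ν hp (S := SS κ) (meas_BB K j) (clDep_BB K j) (ff κ) (meas_ff κ)
          (ff_nonneg κ) (fun w t ht h => ff_lt ht h)
        rw [card_SS hκ1] at h3
        exact h3.trans (by gcongr; exact hBB j)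
      refine (sum_le_sum h2).trans (le_of_eq ?_)
      rw [sum_const, Fintype.card_piFinset, nsmul_eq_mul]
      congr 1
      simp [mul_comm]

end Pool.Agent.TH294.GL
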