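import Pool.Agent.TH294.GL.Neg
import Pool.Agent.W414.GP.PosA
import Pool.Agent.W346.GP.G

/-!
# MP_18bc13_pr: expectation of the positive part of `M_n` at scale `n`
-/

set_option autoImplicit false

open Finset MeasureTheory ProbabilityTheory Filter Topology
open scoped ENNReal

namespace Pool.Agent.TH294.GL

open Pool.Agent.W844.VG (V stp nm finite_ball)
open Pool.Agent.W844.GP

variable {d : ℕ}

lemma meas_Mn (n : ℕ) : Measurable fun w : V d → ℝ => Mn w n := by
  unfold Mn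
  exact Measurable.iSup fun p => Finset.measurable_sum _ fun i _ => measurable_pi_apply _

lemma le_Mn (hd : 1 ≤ d) {w : V d → ℝ} {n : ℕ} {l : List (V d)} (h1 : l.length = n)
    (h2 : IsP (0 :: l)) : wt w l ≤ Mn w n :=
  (lo_iff hd w n _).mp ⟨l, h1, h2, le_rfl⟩

lemma exists_Mn (hd : 1 ≤ d) (w : V d → ℝ) (n : ℕ) :
    ∃ l : List (V d), l.length = n ∧ IsP (0 :: l) ∧ wt w l = Mn w n := by
  obtain ⟨l, h1, h2, h3⟩ := (lo_iff hd w n (Mn w n)).mpr le_rfl
  exact ⟨l, h1, h2, le_antisymm (le_Mn hd h1 h2) h3⟩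

lemma Mn_mono (hd : 1 ≤ d) {w w' : V d → ℝ} (h : ∀ x, w x ≤ w' x) (n : ℕ) : Mn w n ≤ Mn w' n := by
  obtain ⟨l, h1, h2, h3⟩ := exists_Mn hd w n
  rw [← h3]
  refine le_trans ?_ (le_Mn hd h1 h2)
  unfold wt
  exact List.sum_le_sum fun x _ => h x

lemma Mn_nonneg (hd : 1 ≤ d) {w : V d → ℝ} (h : ∀ x, 0 ≤ w x) (n : ℕ) : 0 ≤ Mn w n := by
  obtain ⟨l, h1, h2, h3⟩ := exists_Mn hd w n
  rw [← h3]
  unfold wt
  exact List.sum_nonneg fun x hx => by
    obtain ⟨y, -, rfl⟩ := List.mem_map.mp hx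
    exact h y

/-- the indicator environment -/
noncomputable def ii (s : ℝ) (w : V d → ℝ) : V d → ℝ := fun x => if s < w x then 1 else 0

lemma ii_nonneg (s : ℝ) (w : V d → ℝ) (x : V d) : 0 ≤ ii s w x := by
  unfold ii; split_ifs <;> norm_num

lemma meas_ii (s : ℝ) : Measurable (ii (d := d) s) := by
  rw [measurable_pi_iff]
  intro x
  unfold ii
  exact Measurable.ite (measurableSet_lt measurable_const (measurable_pi_apply x))
    measurable_const measurable_const

open scoped Classical in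
lemma wt_ii (s : ℝ) (w : V d → ℝ) {l : List (V d)} (hl : l.Nodup) :
    wt (ii s w) l = ((l.toFinset.filter fun z => s < w z).card : ℝ) := by
  rw [wt_eq_sum _ hl]
  unfold ii
  rw [sum_ite]
  simp

/-- the tail of the number of large weights on a path -/
lemma tail_ii (hd : 1 ≤ d) : ∃ C : ℝ, 0 < C ∧ ∀ (ν : Measure ℝ) [IsProbabilityMeasure ν]
    (s : ℝ) (n m : ℕ), 1 ≤ n → C * (n * ν.real (Set.Ioi s) ^ ((1 : ℝ) / d) + 1) ≤ m →
    law ν d {w | (m : ℝ) ≤ Mn (ii s w) n} ≤ ENNReal.ofReal (Real.exp (-m)) := by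
  obtain ⟨C, hC, h⟩ := Pool.Agent.W346.GP.gg d hd
  refine ⟨C, hC, fun ν _ s n m hn hm => (measure_mono ?_).trans (h ν s n m hn hm)⟩
  intro w hw
  classical
  obtain ⟨l, h1, h2, h3⟩ := exists_Mn hd (ii s w) n
  have hw' : (m : ℝ) ≤ Mn (ii s w) n := hw
  have hnd : l.Nodup := (List.nodup_cons.mp h2.2).2
  rw [← h3, wt_ii s w hnd] at hw'
  have h4 : m ≤ (l.toFinset.filter fun z => s < w z).card := by exact_mod_cast hw'
  obtain ⟨S, hS, hSc⟩ := exists_subset_card_eq h4
  refine ⟨l, h1, h2, S, hSc, fun z hz => ?_⟩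
  have := mem_filter.mp (hS hz)
  exact ⟨List.mem_toFinset.mp this.1, this.2⟩

/-- expectation from tails -/
lemma lint_le_of_tail {Ω : Type} [MeasurableSpace Ω] (μ : Measure Ω) [IsProbabilityMeasure μ]
    (f : Ω → ℝ) (hf : Measurable f) (m0 : ℕ)
    (h : ∀ j : ℕ, μ {w | ((m0 + j : ℕ) : ℝ) ≤ f w} ≤ ENNReal.ofReal (Real.exp (-((m0 + j : ℕ) : ℝ)))) :
    ∫⁻ w, ENNReal.ofReal (f w) ∂μ ≤ (m0 : ℝ≥0∞) + 2 := by
  have h1 : ∀ w, ENNReal.ofReal (f w) ≤ (m0 : ℝ≥0∞) +
      ∑' j : ℕ, ({w | ((m0 + j : ℕ) : ℝ) ≤ f w}).indicator 1 w := by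
    intro w
    rcases le_or_gt (f w) m0 with hle | hlt
    · calc ENNReal.ofReal (f w) ≤ ENNReal.ofReal m0 := ENNReal.ofReal_le_ofReal hle
        _ = m0 := ENNReal.ofReal_natCast _
        _ ≤ _ := le_self_add
    · set J : ℕ := ⌈f w - m0⌉₊ with hJ
      have hpos : 0 < f w - m0 := by linarith
      have h2 : ENNReal.ofReal (f w) ≤ (m0 : ℝ≥0∞) + J := by
        calc ENNReal.ofReal (f w) ≤ ENNReal.ofReal (m0 + J) := by
              apply ENNReal.ofReal_le_ofReal
              have := Nat.le_ceil (f w - m0)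
              linarith
          _ = _ := by
              rw [ENNReal.ofReal_add (by positivity) (by positivity)]
              simp
      refine h2.trans ?_
      gcongr
      have h3 : (J : ℝ≥0∞) = ∑ j ∈ range J,
          ({w | ((m0 + j : ℕ) : ℝ) ≤ f w}).indicator 1 w := by
        rw [sum_congr rfl (g := fun _ => (1 : ℝ≥0∞))]
        · simp
        · intro j hj
          rw [Set.indicator_of_mem]
          · rfl
          · show ((m0 + j : ℕ) : ℝ) ≤ f w
            have h4 : (j : ℝ) < f w - m0 := by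
              have h5 := mem_range.mp hj
              rw [hJ, Nat.lt_ceil] at h5
              exact h5
            push_cast; linarith
      rw [h3]
      exact ENNReal.sum_le_tsum _
  refine (lintegral_mono h1).trans ?_
  rw [lintegral_add_left measurable_const, lintegral_const, measure_univ, mul_one]
  gcongr
  have hm : ∀ j : ℕ, MeasurableSet {w | ((m0 + j : ℕ) : ℝ) ≤ f w} := fun j =>
    measurableSet_le measurable_const hf
  rw [lintegral_tsum fun j => (measurable_one.indicator (hm j)).aemeasurable]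
  have h2 : ∀ j : ℕ, ∫⁻ w, ({w | ((m0 + j : ℕ) : ℝ) ≤ f w}).indicator 1 w ∂μ ≤
      ENNReal.ofReal ((1 / 2) ^ j) := by
    intro j
    rw [lintegral_indicator_one (hm j)]
    refine (h j).trans (ENNReal.ofReal_le_ofReal ?_)
    have h3 : Real.exp (-((m0 + j : ℕ) : ℝ)) ≤ Real.exp (-1) ^ j := by
      rw [← Real.exp_nat_mul]
      apply Real.exp_le_exp.mpr
      push_cast
      have : (0 : ℝ) ≤ m0 := Nat.cast_nonneg _
      linarith
    refine h3.trans (pow_le_pow_left₀ (Real.exp_pos _).le ?_ j)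
    rw [Real.exp_neg]
    have := Real.add_one_le_exp (1 : ℝ)
    rw [one_div]
    exact inv_anti₀ (by norm_num) (by linarith)
  refine (ENNReal.tsum_le_tsum h2).trans ?_
  rw [← ENNReal.ofReal_tsum_of_nonneg (fun j => by positivity) summable_geometric_two,
    tsum_geometric_two]
  simp

/-- expectation of the number of large weights on a path of length `n` -/
lemma lint_ii (hd : 1 ≤ d) : ∃ C : ℝ, 0 < C ∧ ∀ (ν : Measure ℝ) [IsProbabilityMeasure ν]
    (s : ℝ) (n : ℕ), 1 ≤ n →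
    ∫⁻ w, ENNReal.ofReal (Mn (ii s w) n) ∂law ν d ≤
      ENNReal.ofReal (C * (n * ν.real (Set.Ioi s) ^ ((1 : ℝ) / d))) := by
  obtain ⟨C, hC, h⟩ := tail_ii (d := d) hd
  refine ⟨2 * C + 3 + 3 ^ d, by positivity, fun ν _ s n hn => ?_⟩
  set ρ : ℝ := ν.real (Set.Ioi s) ^ ((1 : ℝ) / d) with hρ
  have hρ0 : 0 ≤ ρ := by positivity
  have hn0 : (1 : ℝ) ≤ n := by exact_mod_cast hn
  have hd0 : (d : ℝ) ≠ 0 := by positivity
  have hρd : ρ ^ d = ν.real (Set.Ioi s) := by
    rw [hρ, ← Real.rpow_natCast, ← Real.rpow_mul (by positivity), one_div_mul_cancel hd0,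
      Real.rpow_one]
  rcases le_or_gt 1 (n * ρ) with h1 | h1
  · have h2 := lint_le_of_tail (law ν d) (fun w => Mn (ii s w) n)
      ((meas_Mn n).comp (meas_ii s)) ⌈C * (n * ρ + 1)⌉₊ (fun j => h ν s n _ hn (by
        have := Nat.le_ceil (C * (n * ρ + 1))
        push_cast
        have hj : (0 : ℝ) ≤ j := Nat.cast_nonneg _
        linarith))
    refine h2.trans ?_
    have h3 : (⌈C * (n * ρ + 1)⌉₊ : ℝ) ≤ C * (n * ρ + 1) + 1 :=
      (Nat.ceil_lt_add_one (by positivity)).le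
    calc (⌈C * (n * ρ + 1)⌉₊ : ℝ≥0∞) + 2 = ENNReal.ofReal (⌈C * (n * ρ + 1)⌉₊ + 2) := by
          rw [ENNReal.ofReal_add (by positivity) (by norm_num)]
          simp
      _ ≤ _ := by
          apply ENNReal.ofReal_le_ofReal
          have h4 : 0 ≤ (3 : ℝ) ^ d * (n * ρ) := by positivity
          nlinarith
  · have h2 : ∀ w : V d → ℝ, ENNReal.ofReal (Mn (ii s w) n) ≤
        ∑ z ∈ Pool.Agent.W844.VG.box d n, ({w : V d → ℝ | s < w z}).indicator 1 w := by
      intro w
      classical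
      obtain ⟨l, h3, h4, h5⟩ := exists_Mn hd (ii s w) n
      rw [← h5, wt_eq_sum _ (List.nodup_cons.mp h4.2).2,
        ENNReal.ofReal_sum_of_nonneg fun z _ => ii_nonneg s w z]
      have h6 : ∀ z ∈ l.toFinset, z ∈ Pool.Agent.W844.VG.box d n := by
        intro z hz
        apply Pool.Agent.W414.GP.mem_box
        have := nm_le_of_chain h4.1 z (List.mem_toFinset.mp hz)
        rw [sub_zero, h3] at this
        exact this
      refine le_trans (sum_le_sum_of_subset_of_nonneg (fun z hz => h6 z hz)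
        fun _ _ _ => bot_le) ?_
      refine sum_le_sum fun z _ => ?_
      unfold ii
      by_cases hz : s < w z
      · rw [if_pos hz, Set.indicator_of_mem (by exact hz)]; simp
      · rw [if_neg hz]; simp
    refine (lintegral_mono h2).trans ?_
    have hm : ∀ z : V d, MeasurableSet {w : V d → ℝ | s < w z} := fun z =>
      measurableSet_lt measurable_const (measurable_pi_apply z)
    rw [lintegral_finsetSum _ fun z _ => measurable_one.indicator (hm z)]
    have h3 : ∀ z ∈ Pool.Agent.W844.VG.box d n,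
        ∫⁻ w, ({w : V d → ℝ | s < w z}).indicator 1 w ∂law ν d = ν (Set.Ioi s) := by
      intro z _
      rw [lintegral_indicator_one (hm z)]
      exact Pool.Agent.W414.GP.law_gt ν z s
    rw [sum_congr rfl h3, sum_const, Pool.Agent.W414.GP.card_box, nsmul_eq_mul,
      ← ENNReal.ofReal_natCast, ← ofReal_measureReal (measure_ne_top _ _),
      ← ENNReal.ofReal_mul (by positivity)]
    apply ENNReal.ofReal_le_ofReal
    rw [← hρd]
    push_cast
    have h4 : (2 * (n : ℝ) + 1) ^ d ≤ (3 * n) ^ d := by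
      apply pow_le_pow_left₀ (by positivity); linarith
    have h5 : (n * ρ) ^ d ≤ n * ρ := by
      apply pow_le_of_le_one (by positivity) h1.le (by omega)
    calc (2 * (n : ℝ) + 1) ^ d * ρ ^ d ≤ (3 * n) ^ d * ρ ^ d := by gcongr
      _ = 3 ^ d * (n * ρ) ^ d := by rw [mul_pow, mul_pow]; ring
      _ ≤ 3 ^ d * (n * ρ) := by gcongr
      _ ≤ _ := by
        have : 0 ≤ (2 * C + 3) * (n * ρ) := by positivity
        nlinarith

/-- the excess over `T` -/
noncomputable def ex (T : ℝ) (w : V d → ℝ) : V d → ℝ := fun x => max (w x - T) 0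

lemma ex_nonneg (T : ℝ) (w : V d → ℝ) (x : V d) : 0 ≤ ex T w x := le_max_right _ _

lemma meas_ex (T : ℝ) : Measurable (ex (d := d) T) := by
  rw [measurable_pi_iff]
  intro x
  unfold ex
  have h : Measurable fun w : V d → ℝ => w x := measurable_pi_apply x
  exact (h.sub_const T).max measurable_const

lemma wt_sum {ι : Type} (s : Finset ι) (f : ι → V d → ℝ) (l : List (V d)) :
    wt (fun x => ∑ k ∈ s, f k x) l = ∑ k ∈ s, wt (f k) l := by
  induction l with
  | nil => simp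
  | cons x l ih => simp [ih, sum_add_distrib]

lemma wt_mul (c : ℝ) (w : V d → ℝ) (l : List (V d)) : wt (fun x => c * w x) l = c * wt w l := by
  induction l with
  | nil => simp
  | cons x l ih => simp [ih, mul_add]

lemma wt_mono {w w' : V d → ℝ} {l : List (V d)} (h : ∀ x ∈ l, w x ≤ w' x) : wt w l ≤ wt w' l := by
  unfold wt
  exact List.sum_le_sum fun x hx => h x hx

lemma ex_level (hd : 1 ≤ d) (k0 : ℕ) (w : V d → ℝ) (n : ℕ) :
    ENNReal.ofReal (Mn (ex (2 ^ k0) w) n) ≤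
      ∑' i : ℕ, ENNReal.ofReal (2 ^ (i + k0)) * ENNReal.ofReal (Mn (ii (2 ^ (i + k0)) w) n) := by
  classical
  obtain ⟨l, h1, h2, h3⟩ := exists_Mn hd (ex (2 ^ k0) w) n
  obtain ⟨j, hj⟩ : ∃ j : ℕ, ∀ x ∈ l, w x ≤ 2 ^ j := by
    have hb : ∃ B : ℝ, ∀ x ∈ l, w x ≤ B := by
      obtain ⟨B, hB⟩ := (l.toFinset.image w).bddAbove
      exact ⟨B, fun x hx => hB (by simpa using ⟨x, hx, rfl⟩)⟩
    obtain ⟨B, hB⟩ := hb
    obtain ⟨j, hj⟩ := pow_unbounded_of_one_lt B (by norm_num : (1 : ℝ) < 2)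
    exact ⟨j, fun x hx => (hB x hx).trans hj.le⟩
  have h4 : wt (ex (2 ^ k0) w) l ≤ ∑ k ∈ Ico k0 j, 2 ^ k * Mn (ii (2 ^ k) w) n := by
    calc wt (ex (2 ^ k0) w) l ≤ wt (fun x => ∑ k ∈ Ico k0 j, 2 ^ k * ii (2 ^ k) w x) l := by
          refine wt_mono fun x hx => ?_
          have h5 := Pool.Agent.W414.GP.level k0 (w x) j (hj x hx)
          unfold ex ii
          refine h5.trans (le_of_eq (sum_congr rfl fun k _ => ?_))
          split_ifs <;> simp
      _ = ∑ k ∈ Ico k0 j, 2 ^ k * wt (ii (2 ^ k) w) l := by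
          rw [wt_sum]; exact sum_congr rfl fun k _ => wt_mul _ _ _
      _ ≤ _ := sum_le_sum fun k _ => by
          have := le_Mn hd (w := ii (2 ^ k) w) h1 h2
          gcongr
  rw [← h3]
  refine (ENNReal.ofReal_le_ofReal h4).trans ?_
  rw [ENNReal.ofReal_sum_of_nonneg fun k _ => mul_nonneg (by positivity)
    (Mn_nonneg hd (ii_nonneg _ _) n)]
  rw [sum_Ico_eq_sum_range]
  refine le_trans (le_of_eq (sum_congr rfl fun i _ => ?_)) (ENNReal.sum_le_tsum (range (j - k0)))
  rw [ENNReal.ofReal_mul (by positivity), add_comm k0 i]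

/-- the positive part: the excess over a large level costs at most `ε n` in expectation -/
theorem pos_bound (hd : 1 ≤ d) (ν : Measure ℝ) [IsProbabilityMeasure ν] {α : ℝ} (hα : 0 < α)
    (hM : ∫⁻ x, ENNReal.ofReal ((max x 0) ^ d * (max (Real.log (max x 0)) 0) ^ ((d : ℝ) + α)) ∂ν
      < ⊤) {ε : ℝ} (hε : 0 < ε) :
    ∃ T : ℝ, 0 ≤ T ∧ ∀ n : ℕ, 1 ≤ n →
      ∫⁻ w, ENNReal.ofReal (Mn (ex T w) n) ∂law ν d ≤ ENNReal.ofReal (ε * n) := by
  obtain ⟨C, hC, h⟩ := lint_ii (d := d) hd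
  have hsum := Pool.Agent.W414.GP.summable_levels hd hα hM
  set f : ℕ → ℝ := fun k => (2:ℝ) ^ k * ν.real (Set.Ioi ((2:ℝ) ^ k)) ^ ((1 : ℝ) / d) with hf
  have hf0 : ∀ k, 0 ≤ f k := fun k => by simp only [hf]; positivity
  have ht := tendsto_sum_nat_add f
  obtain ⟨k0, hk0⟩ := ((tendsto_order.mp ht).2 (ε / C) (by positivity)).exists
  refine ⟨2 ^ k0, by positivity, fun n hn => ?_⟩
  refine (lintegral_mono fun w => ex_level hd k0 w n).trans ?_
  have hm : ∀ i : ℕ, Measurable fun w : V d → ℝ => ENNReal.ofReal (Mn (ii (2 ^ (i + k0)) w) n) :=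
    fun i => ((meas_Mn n).comp (meas_ii _)).ennreal_ofReal
  rw [lintegral_tsum fun i => ((hm i).const_mul _).aemeasurable]
  have h1 : ∀ i : ℕ, ∫⁻ w, ENNReal.ofReal (2 ^ (i + k0)) *
      ENNReal.ofReal (Mn (ii (2 ^ (i + k0)) w) n) ∂law ν d ≤
      ENNReal.ofReal (C * n * f (i + k0)) := by
    intro i
    rw [lintegral_const_mul _ (hm i)]
    calc _ ≤ ENNReal.ofReal (2 ^ (i + k0)) * ENNReal.ofReal (C * (n *
          ν.real (Set.Ioi ((2:ℝ) ^ (i + k0))) ^ ((1 : ℝ) / d))) := by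
          gcongr; exact h ν _ n hn
      _ = _ := by
          rw [← ENNReal.ofReal_mul (by positivity)]
          congr 1
          simp only [hf]; ring
  refine (ENNReal.tsum_le_tsum h1).trans ?_
  have hs : Summable fun i => C * n * f (i + k0) :=
    ((summable_nat_add_iff k0).mpr hsum).mul_left _
  rw [← ENNReal.ofReal_tsum_of_nonneg (fun i => mul_nonneg (by positivity) (hf0 _)) hs]
  apply ENNReal.ofReal_le_ofReal
  rw [tsum_mul_left]
  have hn0 : (0 : ℝ) < n := by exact_mod_cast hn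
  calc C * n * ∑' i, f (i + k0) ≤ C * n * (ε / C) := by gcongr
    _ = ε * n := by field_simp

end Pool.Agent.TH294.GL
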